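import Pool.Agent.Lib.MP_0bc52e_nt.K.Stm
import Pool.Agent.Lib.MP_0bc52e_nt.T.All

/-!
[frQ] of `K/Stm.lean` (MP_0bc52e_nt): frames that fix the origin.
-/

set_option autoImplicit false

namespace Pool.Agent.Lib.MP_0bc52e_nt.K

open Pool.Agent.Lib.MP_0bc52e_nt.LC Pool.Agent.Lib.MP_0bc52e_nt.T Pool.Agent.Lib.MP_0bc52e_nt.R

private theorem p_frQ_zero {f : ℝ × ℝ × ℝ → ℝ × ℝ × ℝ} {O a b c : ℤ × ℤ × ℤ}
    (hfr : ∀ v, f v = fr O a b c v) (h0 : f (ip (0, 0, 0)) = ip (0, 0, 0)) :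
    (O.1 : ℝ) = 0 ∧ (O.2.1 : ℝ) = 0 ∧ (O.2.2 : ℝ) = 0 := by
  rw [hfr] at h0
  simpa [fr, ip, Prod.ext_iff] using h0

private theorem p_frQ_lin {f : ℝ × ℝ × ℝ → ℝ × ℝ × ℝ} {O a b c : ℤ × ℤ × ℤ}
    (hfr : ∀ v, f v = fr O a b c v) (h0 : f (ip (0, 0, 0)) = ip (0, 0, 0)) (r s : ℝ)
    (x y : ℝ × ℝ × ℝ) : f (r • x - s • y) = r • f x - s • f y := by
  obtain ⟨h1, h2, h3⟩ := p_frQ_zero hfr h0
  rw [hfr, hfr, hfr]
  refine Prod.ext ?_ (Prod.ext ?_ ?_)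
  · simp only [fr, Prod.fst_sub, Prod.snd_sub, Prod.smul_fst, Prod.smul_snd, smul_eq_mul, h1]
    ring
  · simp only [fr, Prod.fst_sub, Prod.snd_sub, Prod.smul_fst, Prod.smul_snd, smul_eq_mul, h2]
    ring
  · simp only [fr, Prod.fst_sub, Prod.snd_sub, Prod.smul_fst, Prod.smul_snd, smul_eq_mul, h3]
    ring

private theorem p_frQ_ip (k p : ℤ) (w z : ℤ × ℤ × ℤ) :
    ip (k • w - p • z) = (k : ℝ) • ip w - (p : ℝ) • ip z := by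
  refine Prod.ext ?_ (Prod.ext ?_ ?_) <;>
    simp [ip]

theorem p_frQ : S_frQ := by
  intro f hf h0 Q
  refine ⟨?_, ?_⟩
  · rintro ⟨h1, h2, h3⟩
    have h := T.q_fr2 f hf Q
    refine ⟨h.2.1 h1, h.2.2.1 h2, ?_⟩
    change f (ip (0, 0, 0)) ∈ Q
    rw [h0]
    exact h3
  · intro p u w huw hA k hk hkp z y hy heq
    obtain ⟨z', hz'⟩ := T.q_fr1.2.2.1 f hf z
    obtain ⟨O, a, b, c, hdet, hfr⟩ := hf
    apply hA k hk hkp z' (f y) hy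
    have h1 := p_frQ_lin hfr h0 ((p - k : ℤ) : ℝ) 0 y y
    rw [zero_smul, sub_zero, zero_smul, sub_zero] at h1
    rw [← h1, heq, p_frQ_ip, p_frQ_lin hfr h0, huw, hz', p_frQ_ip]

end Pool.Agent.Lib.MP_0bc52e_nt.K
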