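import Pool.Agent.Lib.MP_0bc52e_nt.K.Stm

/-! Piece alv. -/

namespace Pool.Agent.Lib.MP_0bc52e_nt.K

open Pool.Agent.Lib.MP_0bc52e_nt.LC Pool.Agent.Lib.MP_0bc52e_nt.T Pool.Agent.Lib.MP_0bc52e_nt.R

theorem p_alv : S_alv := by
  rintro Q p ⟨a, b, c, h⟩
  refine ⟨(-a, -b, -c), ?_⟩
  rintro k hk hkp ⟨z1, z2, z3⟩ ⟨u, v, w⟩ hy he
  obtain ⟨n, hn⟩ : ∃ n : ℕ, (n : ℤ) = (p : ℤ) - k := ⟨((p : ℤ) - k).toNat, by omega⟩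
  have hnR : (n : ℝ) = (((p : ℤ) - k : ℤ) : ℝ) := by rw [← hn]; norm_cast
  have h1 := congrArg (fun q : ℝ × ℝ × ℝ => q.1) he
  have h2 := congrArg (fun q : ℝ × ℝ × ℝ => q.2.1) he
  have h3 := congrArg (fun q : ℝ × ℝ × ℝ => q.2.2) he
  simp only [ip, Prod.smul_mk, Prod.mk_sub_mk, smul_eq_mul] at h1 h2 h3
  rw [← hnR] at h1 h2 h3
  refine h n (by omega) (by omega) (k * -a - (p : ℤ) * z1) (k * -b - (p : ℤ) * z2)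
    (k * -c - (p : ℤ) * z3) u v w hy h1.symm h2.symm h3.symm ?_ ?_ ?_
  · rw [hn]; exact ⟨-z1 - a, by ring⟩
  · rw [hn]; exact ⟨-z2 - b, by ring⟩
  · rw [hn]; exact ⟨-z3 - c, by ring⟩

end Pool.Agent.Lib.MP_0bc52e_nt.K
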