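import Pool.Agent.Lib.MP_0bc52e_nt.K.Stm

/-!
# MP_0bc52e_nt, piece [TK orig]: the origin is in the hull of every root
-/

set_option autoImplicit false

namespace Pool.Agent.Lib.MP_0bc52e_nt.K

open Pool.Agent.Lib.MP_0bc52e_nt.LC Pool.Agent.Lib.MP_0bc52e_nt.T Pool.Agent.Lib.MP_0bc52e_nt.R

private theorem p_orig_conv {Q : Set (ℝ × ℝ × ℝ)} (hQ : Convex ℝ Q) {x a b c : ℝ × ℝ × ℝ}
    (hx : x ∈ Q) (ha : a ∈ Q) (hb : b ∈ Q) (hc : c ∈ Q) {w0 w1 w2 w3 : ℝ} (h0 : 0 ≤ w0)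
    (h1 : 0 ≤ w1) (h2 : 0 ≤ w2) (h3 : 0 ≤ w3) (hs : w0 + w1 + w2 + w3 = 1) :
    w0 • x + w1 • a + w2 • b + w3 • c ∈ Q := by
  have h := hQ.sum_mem (t := Finset.univ) (w := ![w0, w1, w2, w3]) (z := ![x, a, b, c])
    (by intro i _; fin_cases i <;> simpa) (by simpa [Fin.sum_univ_four] using hs)
    (by intro i _; fin_cases i <;> simpa)
  simpa [Fin.sum_univ_four] using h

private theorem p_orig_coord (w0 w1 w2 w3 a b c d : ℤ) (h : w0 * a + w1 * b + w2 * c + w3 * d = 0)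
    (S : ℝ) : (w0 : ℝ) / S * a + (w1 : ℝ) / S * b + (w2 : ℝ) / S * c + (w3 : ℝ) / S * d = 0 := by
  have h' : (w0 : ℝ) * a + w1 * b + w2 * c + w3 * d = 0 := by exact_mod_cast h
  have e : (w0 : ℝ) / S * a + (w1 : ℝ) / S * b + (w2 : ℝ) / S * c + (w3 : ℝ) / S * d =
      ((w0 : ℝ) * a + w1 * b + w2 * c + w3 * d) / S := by ring
  rw [e, h', zero_div]

private theorem p_orig_four {Q : Set (ℝ × ℝ × ℝ)} (hQ : Convex ℝ Q) (v0 v1 v2 v3 : ℤ × ℤ × ℤ)
    (w0 w1 w2 w3 : ℤ) (h0 : 0 ≤ w0) (h1 : 0 ≤ w1) (h2 : 0 ≤ w2) (h3 : 0 ≤ w3)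
    (hs : 0 < w0 + w1 + w2 + w3)
    (e1 : w0 * v0.1 + w1 * v1.1 + w2 * v2.1 + w3 * v3.1 = 0)
    (e2 : w0 * v0.2.1 + w1 * v1.2.1 + w2 * v2.2.1 + w3 * v3.2.1 = 0)
    (e3 : w0 * v0.2.2 + w1 * v1.2.2 + w2 * v2.2.2 + w3 * v3.2.2 = 0)
    (m0 : ip v0 ∈ Q) (m1 : ip v1 ∈ Q) (m2 : ip v2 ∈ Q) (m3 : ip v3 ∈ Q) : ip (0, 0, 0) ∈ Q := by
  have hS' : (0 : ℝ) < ((w0 + w1 + w2 + w3 : ℤ) : ℝ) := by exact_mod_cast hs
  have h := p_orig_conv hQ m0 m1 m2 m3
    (w0 := (w0 : ℝ) / ((w0 + w1 + w2 + w3 : ℤ) : ℝ)) (w1 := (w1 : ℝ) / ((w0 + w1 + w2 + w3 : ℤ) : ℝ))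
    (w2 := (w2 : ℝ) / ((w0 + w1 + w2 + w3 : ℤ) : ℝ)) (w3 := (w3 : ℝ) / ((w0 + w1 + w2 + w3 : ℤ) : ℝ))
    (div_nonneg (by exact_mod_cast h0) hS'.le) (div_nonneg (by exact_mod_cast h1) hS'.le)
    (div_nonneg (by exact_mod_cast h2) hS'.le) (div_nonneg (by exact_mod_cast h3) hS'.le)
    (by
      rw [← add_div, ← add_div, ← add_div, div_eq_one_iff_eq hS'.ne']
      push_cast
      ring)
  unfold ip at h ⊢
  simp only [Prod.smul_mk, Prod.mk_add_mk, smul_eq_mul] at h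
  rw [p_orig_coord _ _ _ _ _ _ _ _ e1, p_orig_coord _ _ _ _ _ _ _ _ e2,
    p_orig_coord _ _ _ _ _ _ _ _ e3] at h
  simpa using h

theorem p_orig : S_orig := by
  intro Q hQ h
  rcases h with ⟨R, hR, h⟩ | ⟨R, hR, h⟩ | ⟨b, h⟩
  · simp only [Theta, List.mem_cons, List.not_mem_nil, or_false] at hR
    rcases hR with rfl | rfl | rfl | rfl | rfl | rfl | rfl | rfl
    · exact p_orig_four hQ (-1, -1, -1) (1, 0, 0) (0, 1, 0) (0, 0, 1) 1 1 1 1 (by norm_num) (by norm_num)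
        (by norm_num) (by norm_num) (by norm_num) (by norm_num) (by norm_num) (by norm_num)
        (h _ (by decide)) (h _ (by decide)) (h _ (by decide)) (h _ (by decide))
    · exact p_orig_four hQ (-1, -1, -2) (1, 0, 0) (0, 1, 0) (0, 0, 1) 1 1 1 2 (by norm_num) (by norm_num)
        (by norm_num) (by norm_num) (by norm_num) (by norm_num) (by norm_num) (by norm_num)
        (h _ (by decide)) (h _ (by decide)) (h _ (by decide)) (h _ (by decide))
    · exact p_orig_four hQ (-1, -2, -3) (1, 0, 0) (0, 1, 0) (0, 0, 1) 1 1 2 3 (by norm_num) (by norm_num)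
        (by norm_num) (by norm_num) (by norm_num) (by norm_num) (by norm_num) (by norm_num)
        (h _ (by decide)) (h _ (by decide)) (h _ (by decide)) (h _ (by decide))
    · exact p_orig_four hQ (-2, -3, -5) (1, 0, 0) (0, 1, 0) (0, 0, 1) 1 2 3 5 (by norm_num) (by norm_num)
        (by norm_num) (by norm_num) (by norm_num) (by norm_num) (by norm_num) (by norm_num)
        (h _ (by decide)) (h _ (by decide)) (h _ (by decide)) (h _ (by decide))
    · exact p_orig_four hQ (-3, -4, -5) (1, 0, 0) (0, 1, 0) (0, 0, 1) 1 3 4 5 (by norm_num) (by norm_num)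
        (by norm_num) (by norm_num) (by norm_num) (by norm_num) (by norm_num) (by norm_num)
        (h _ (by decide)) (h _ (by decide)) (h _ (by decide)) (h _ (by decide))
    · exact p_orig_four hQ (-4, -5, 3) (1, 1, -2) (1, 0, 0) (0, 1, 0) 2 3 5 7 (by norm_num) (by norm_num)
        (by norm_num) (by norm_num) (by norm_num) (by norm_num) (by norm_num) (by norm_num)
        (h _ (by decide)) (h _ (by decide)) (h _ (by decide)) (h _ (by decide))
    · exact p_orig_four hQ (1, -1, 4) (-2, -1, -3) (1, 0, 0) (0, 1, 0) 3 4 5 7 (by norm_num) (by norm_num)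
        (by norm_num) (by norm_num) (by norm_num) (by norm_num) (by norm_num) (by norm_num)
        (h _ (by decide)) (h _ (by decide)) (h _ (by decide)) (h _ (by decide))
    · exact p_orig_four hQ (-5, 1, 2) (5, -2, -3) (0, 1, 0) (0, 0, 1) 1 1 1 1 (by norm_num) (by norm_num)
        (by norm_num) (by norm_num) (by norm_num) (by norm_num) (by norm_num) (by norm_num)
        (h _ (by decide)) (h _ (by decide)) (h _ (by decide)) (h _ (by decide))
  · have h1 : (0, 0, 1) ∈ R ∧ (0, 0, -1) ∈ R := by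
      revert R
      intro R hR _
      simp only [Beta, List.mem_cons, List.not_mem_nil, or_false] at hR
      rcases hR with rfl | rfl | rfl | rfl | rfl | rfl | rfl | rfl | rfl | rfl | rfl | rfl | rfl | rfl <;>
        exact ⟨by decide, by decide⟩
    exact p_orig_four hQ (0, 0, 1) (0, 0, -1) (0, 0, 1) (0, 0, 1) 1 1 0 0 (by norm_num) (by norm_num)
      (by norm_num) (by norm_num) (by norm_num) (by norm_num) (by norm_num) (by norm_num)
      (h _ h1.1) (h _ h1.2) (h _ h1.1) (h _ h1.1)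
  · fin_cases b
    · exact p_orig_four hQ (1, 0, 0) (0, 1, 0) (-1, -1, 0) (1, 0, 0) 1 1 1 0 (by norm_num) (by norm_num)
        (by norm_num) (by norm_num) (by norm_num) (by norm_num) (by norm_num) (by norm_num)
        (h _ (by decide)) (h _ (by decide)) (h _ (by decide)) (h _ (by decide))
    · exact p_orig_four hQ (1, 1, 0) (-1, 1, 0) (0, -1, 0) (1, 1, 0) 1 1 2 0 (by norm_num) (by norm_num)
        (by norm_num) (by norm_num) (by norm_num) (by norm_num) (by norm_num) (by norm_num)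
        (h _ (by decide)) (h _ (by decide)) (h _ (by decide)) (h _ (by decide))
    · exact p_orig_four hQ (1, 0, 0) (-1, 0, 0) (0, 1, 0) (0, -1, 0) 1 1 1 1 (by norm_num) (by norm_num)
        (by norm_num) (by norm_num) (by norm_num) (by norm_num) (by norm_num) (by norm_num)
        (h _ (by decide)) (h _ (by decide)) (h _ (by decide)) (h _ (by decide))

end Pool.Agent.Lib.MP_0bc52e_nt.K
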