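import Pool.Agent.Lib.MP_0bc52e_nt.K.Stm

/-!
MP_0bc52e_nt, Theorem (T13): piece [GOs], splitting a goal.
-/

namespace Pool.Agent.Lib.MP_0bc52e_nt.K

open Pool.Agent.Lib.MP_0bc52e_nt.LC Pool.Agent.Lib.MP_0bc52e_nt.T Pool.Agent.Lib.MP_0bc52e_nt.R

private theorem p_GOs_cut (κ M m a b x : ℤ) (dl : ℕ) (h : dl = 0 ∨ dl = 1 ∧ κ = 1 ∧ M = 1)
    (hx : Bt κ a b (M * x)) : Bt κ a m (M * x) ∨ Bt κ (m + dl) b (M * x) := by
  obtain ⟨h1, h2⟩ := hx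
  unfold Bt
  rcases h with rfl | ⟨rfl, rfl, rfl⟩
  · simp only [Nat.cast_zero, add_zero]
    rcases le_total (M * x) (m * κ) with h | h
    · exact Or.inl ⟨h1, h⟩
    · exact Or.inr ⟨h, h2⟩
  · simp only [Nat.cast_one, mul_one, one_mul] at h1 h2 ⊢
    rcases le_or_gt x m with h | h
    · exact Or.inl ⟨h1, h⟩
    · exact Or.inr ⟨by omega, h2⟩

theorem p_GOs : S_GOs := by
  intro PP p κ M D V a1 b1 a2 b2 a3 b3 m dl hdl
  refine ⟨?_, ?_, ?_⟩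
  · intro h1 h2 u hD hu1 hu2 hu3 hw
    rcases p_GOs_cut κ M m a1 b1 u.1 dl hdl hu1 with h | h
    · exact h1 u hD h hu2 hu3 hw
    · exact h2 u hD h hu2 hu3 hw
  · intro h1 h2 u hD hu1 hu2 hu3 hw
    rcases p_GOs_cut κ M m a2 b2 u.2.1 dl hdl hu2 with h | h
    · exact h1 u hD hu1 h hu3 hw
    · exact h2 u hD hu1 h hu3 hw
  · intro h1 h2 u hD hu1 hu2 hu3 hw
    rcases p_GOs_cut κ M m a3 b3 u.2.2 dl hdl hu3 with h | h
    · exact h1 u hD hu1 hu2 h hw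
    · exact h2 u hD hu1 hu2 h hw

end Pool.Agent.Lib.MP_0bc52e_nt.K
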