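import Pool.Agent.Lib.MP_0bc52e_nt.K.Stm

/-!
MP_0bc52e_nt, soundness of the checker: [alO]
-/

set_option autoImplicit false

namespace Pool.Agent.Lib.MP_0bc52e_nt.K

open Pool.Agent.Lib.MP_0bc52e_nt.LC Pool.Agent.Lib.MP_0bc52e_nt.T Pool.Agent.Lib.MP_0bc52e_nt.R

theorem p_alO (h_op1 : S_op1) (h_op2 : S_op2) (h_nth : S_nth) (h_pushL : S_pushL) : S_alO := by
  intro PP p D V0 ofams a1 b1 a2 b2 a3 b3 l d hfam hall
  obtain ⟨hst, -⟩ := h_op1
  obtain ⟨-, -, heq, han, -, -, -, -, -, hgd⟩ := h_op2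
  unfold alO at hall
  by_cases hp : pt1 a1 b1 a2 b2 a3 b3 = true
  · rw [hp, (hgd _).1, hst] at hall
    unfold pt1 at hp
    rw [han, han, heq, heq, heq] at hp
    obtain ⟨e1, e2, e3⟩ := hp
    obtain ⟨hne, hd, hl⟩ := h_pushL PP p 1 1 D V0 V0 a1 a2 a3 _ _ 256 l _
      (Int.natCast_nonneg _) (by norm_num)
      (show (Int.ofNat (Nat.mul 256 (Nat.succ (Nat.mod (Nat.div d 1024) 256))) : ℤ) =
        256 * (Int.ofNat (Nat.mod (Nat.div d 1024) 256) + 1) by
          have : (Nat.mul 256 (Nat.succ (Nat.mod (Nat.div d 1024) 256))) =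
            256 * ((Nat.mod (Nat.div d 1024) 256) + 1) := rfl
          rw [this]
          push_cast
          rfl) hall
    refine ⟨?_, hl⟩
    intro u hu h1 h2 h3 hmin Q hQ hV
    have hmem : nth [] ofams (Nat.mod (Nat.div d 4) 256) ∈ ofams := by
      rcases h_nth (List Fam) [] ofams (Nat.mod (Nat.div d 4) 256) with h | h
      · exact h
      · exact absurd h hne
    obtain ⟨f, hf, m1, m2, m3, hok, hin⟩ := hfam _ hmem Q hQ
    have hu' : u = (a1, a2, a3) := by
      obtain ⟨u1, u2, u3⟩ := u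
      unfold Bt at h1 h2 h3
      simp only at h1 h2 h3
      have i1 : u1 = a1 := by omega
      have i2 : u2 = a2 := by omega
      have i3 : u3 = a3 := by omega
      rw [i1, i2, i3]
    rw [hu']
    refine hd f hf m1 m2 m3 hok Q hQ ?_
    intro v hv
    rcases List.mem_cons.1 hv with rfl | hv
    · exact hin
    · exact hV v hv
  · rw [Bool.not_eq_true] at hp
    rw [hp, (hgd _).2] at hall
    exact False.elim hall

end Pool.Agent.Lib.MP_0bc52e_nt.K
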