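import Pool.Agent.Lib.MP_0bc52e_nt.K.Stm

/-!
[alX] of `K/Stm.lean` (MP_0bc52e_nt).
-/

namespace Pool.Agent.Lib.MP_0bc52e_nt.K

open Pool.Agent.Lib.MP_0bc52e_nt.LC Pool.Agent.Lib.MP_0bc52e_nt.T Pool.Agent.Lib.MP_0bc52e_nt.R

theorem p_alX (h_op1 : S_op1) (h_op2 : S_op2) (h_pushF : S_pushF) (h_clf : S_clf) : S_alX := by
  obtain ⟨hst, hsi, -, -, -, hmu, had⟩ := h_op1
  obtain ⟨-, -, heqi, han, -, -, -, -, -, hgd⟩ := h_op2
  intro PP p κ₀ M₀ D V0 V u1 u2 u3 f a0 b0 a1 b1 a2 b2 a3 b3 l d hC hA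
  cases f with
  | mk t1 t2 t3 e1 e2 e3 dim =>
  have hb : pt1 a1 b1 a2 b2 a3 b3 = true := by
    by_contra hb
    have hb' : pt1 a1 b1 a2 b2 a3 b3 = false := by simpa using hb
    unfold alX at hA
    rw [hb', (hgd _).2] at hA
    exact hA
  have hE : a1 = b1 ∧ a2 = b2 ∧ a3 = b3 := by
    unfold pt1 at hb
    rw [han, han, heqi, heqi, heqi] at hb
    exact hb
  obtain ⟨hE1, hE2, hE3⟩ := hE
  unfold alX at hA
  rw [hb, (hgd _).1] at hA
  change All PP p κ₀ M₀ D V0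
    (si (ad (mu t1 a1) e1) fun x => si (ad (mu t2 a2) e2) fun y => si (ad (mu t3 a3) e3) fun z =>
      st (Nat.mod (Nat.div d 1024) 256) (fun L =>
        pushF (P3.mk x y z :: V) u1 u2 u3 (Int.ofNat L) (Int.ofNat (Nat.mul 256 (Nat.succ L))) 256 l
          (clf (Nat.mod (Nat.div d 4) 8)))) at hA
  rw [hsi, hsi, hsi, hst, had, had, had, hmu, hmu, hmu] at hA
  obtain ⟨h1, h2⟩ := h_pushF PP p κ₀ M₀ D V0 _ u1 u2 u3 _ _ 256 l _ (Int.natCast_nonneg _) (by norm_num)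
    (by
      show ((256 * (Nat.mod (Nat.div d 1024) 256 + 1) : ℕ) : ℤ) = 256 * ((Nat.mod (Nat.div d 1024) 256 : ℕ) + 1)
      push_cast
      rfl) hA
  refine ⟨?_, h2⟩
  intro m1 m2 m3 κ M hκ hM hdl B0 B1 B2 B3
  rcases hdl with h | ⟨-, hκ1, hM1⟩
  · exact absurd h one_ne_zero
  subst hκ1 hM1 hE1 hE2 hE3
  have e1' : m1 = a1 := by
    have := B1.1; have := B1.2; linarith
  have e2' : m2 = a2 := by
    have := B2.1; have := B2.2; linarith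
  have e3' : m3 = a3 := by
    have := B3.1; have := B3.2; linarith
  subst e1' e2' e3'
  intro Q hQ hV hAlv
  obtain ⟨n1, n2, n3, hok, hin⟩ := h_clf Q (Nat.mod (Nat.div d 4) 8) (hC Q hQ).2.1
  refine h1 n1 n2 n3 hok Q hQ ?_ hAlv
  intro v hv
  rcases List.mem_cons.1 hv with rfl | hv
  · exact hin
  · exact hV v hv

end Pool.Agent.Lib.MP_0bc52e_nt.K
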