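import Pool.Agent.Lib.MP_0bc52e_nt.K.Stm

/-!
Piece `cell4` (MP_0bc52e_nt): cells from barycentric coordinates.
-/

namespace Pool.Agent.Lib.MP_0bc52e_nt.K

open Pool.Agent.Lib.MP_0bc52e_nt.LC Pool.Agent.Lib.MP_0bc52e_nt.T Pool.Agent.Lib.MP_0bc52e_nt.R

private theorem p_cell4_cvx (Q : Set (ℝ × ℝ × ℝ)) (hQ : Convex ℝ Q) (v0 v1 v2 v3 : ℝ × ℝ × ℝ)
    (h0 : v0 ∈ Q) (h1 : v1 ∈ Q) (h2 : v2 ∈ Q) (h3 : v3 ∈ Q) (l0 l1 l2 l3 : ℝ) (g0 : 0 ≤ l0)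
    (g1 : 0 ≤ l1) (g2 : 0 ≤ l2) (g3 : 0 ≤ l3) (hs : l0 + l1 + l2 + l3 = 1) :
    l0 • v0 + l1 • v1 + l2 • v2 + l3 • v3 ∈ Q := by
  have h := hQ.sum_mem (t := Finset.univ) (w := ![l0, l1, l2, l3]) (z := ![v0, v1, v2, v3])
    (by
      intro i _
      fin_cases i
      · exact g0
      · exact g1
      · exact g2
      · exact g3)
    (by rw [Fin.sum_univ_four]; exact hs)
    (by
      intro i _
      fin_cases i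
      · exact h0
      · exact h1
      · exact h2
      · exact h3)
  rw [Fin.sum_univ_four] at h
  exact h

private theorem p_cell4_co (X Y Z T : ℤ) (e0 e1 e2 e3 x0 x1 x2 x3 : ℤ)
    (hD : 0 < X) (hN : 0 < Y) (h : e0 * x0 + e1 * x1 + e2 * x2 + e3 * x3 = X * T) (_ : Z = 0) :
    (Y : ℝ) * ((e0 : ℝ) / (X * Y) * x0 + (e1 : ℝ) / (X * Y) * x1 + (e2 : ℝ) / (X * Y) * x2 +
      (e3 : ℝ) / (X * Y) * x3) = T := by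
  have hX : (X : ℝ) ≠ 0 := by exact_mod_cast hD.ne'
  have hY : (Y : ℝ) ≠ 0 := by exact_mod_cast hN.ne'
  have h' : (e0 : ℝ) * x0 + e1 * x1 + e2 * x2 + e3 * x3 = X * T := by exact_mod_cast h
  field_simp
  linarith

theorem p_cell4 : S_cell4 := by
  intro PP V0 a0 b0 c0 d0 a1 b1 c1 d1 a2 b2 c2 d2 a3 b3 c3 d3 x0 y0 z0 x1 y1 z1 x2 y2 z2 x3 y3 z3
    E0 E1 E2 E3 D hPP hD hE h1 hx hy hz hV F hF x N hN hf Q hQ hVQ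
  obtain ⟨e0, e1, e2, e3⟩ := hE
  obtain ⟨p1, p2, p3, p4⟩ := h1
  obtain ⟨q1, q2, q3, q4⟩ := hx
  obtain ⟨r1, r2, r3, r4⟩ := hy
  obtain ⟨s1, s2, s3, s4⟩ := hz
  obtain ⟨v0, v1, v2, v3⟩ := hV
  rw [List.mem_singleton] at hF
  subst hF
  have f0 : 0 ≤ a0 * x.1 + b0 * x.2.1 + c0 * x.2.2 + d0 * N := hf (F4.mk a0 b0 c0 d0) (by simp)
  have f1 : 0 ≤ a1 * x.1 + b1 * x.2.1 + c1 * x.2.2 + d1 * N := hf (F4.mk a1 b1 c1 d1) (by simp)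
  have f2 : 0 ≤ a2 * x.1 + b2 * x.2.1 + c2 * x.2.2 + d2 * N := hf (F4.mk a2 b2 c2 d2) (by simp)
  have f3 : 0 ≤ a3 * x.1 + b3 * x.2.1 + c3 * x.2.2 + d3 * N := hf (F4.mk a3 b3 c3 d3) (by simp)
  set F0 := a0 * x.1 + b0 * x.2.1 + c0 * x.2.2 + d0 * N with hF0
  set F1 := a1 * x.1 + b1 * x.2.1 + c1 * x.2.2 + d1 * N with hF1
  set F2 := a2 * x.1 + b2 * x.2.1 + c2 * x.2.2 + d2 * N with hF2
  set F3 := a3 * x.1 + b3 * x.2.1 + c3 * x.2.2 + d3 * N with hF3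
  have k1 : E0 * F0 + E1 * F1 + E2 * F2 + E3 * F3 = D * N := by
    rw [hF0, hF1, hF2, hF3]
    linear_combination x.1 * p1 + x.2.1 * p2 + x.2.2 * p3 + N * p4
  have k2 : E0 * F0 * x0 + E1 * F1 * x1 + E2 * F2 * x2 + E3 * F3 * x3 = D * x.1 := by
    rw [hF0, hF1, hF2, hF3]
    linear_combination x.1 * q1 + x.2.1 * q2 + x.2.2 * q3 + N * q4
  have k3 : E0 * F0 * y0 + E1 * F1 * y1 + E2 * F2 * y2 + E3 * F3 * y3 = D * x.2.1 := by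
    rw [hF0, hF1, hF2, hF3]
    linear_combination x.1 * r1 + x.2.1 * r2 + x.2.2 * r3 + N * r4
  have k4 : E0 * F0 * z0 + E1 * F1 * z1 + E2 * F2 * z2 + E3 * F3 * z3 = D * x.2.2 := by
    rw [hF0, hF1, hF2, hF3]
    linear_combination x.1 * s1 + x.2.1 * s2 + x.2.2 * s3 + N * s4
  obtain ⟨hconv, -, -⟩ := hPP Q hQ
  have hDN : (0 : ℝ) < (D : ℝ) * N := by exact_mod_cast mul_pos hD hN
  have g0 : (0 : ℝ) ≤ ((E0 * F0 : ℤ) : ℝ) / (D * N) :=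
    div_nonneg (by exact_mod_cast mul_nonneg e0 f0) hDN.le
  have g1 : (0 : ℝ) ≤ ((E1 * F1 : ℤ) : ℝ) / (D * N) :=
    div_nonneg (by exact_mod_cast mul_nonneg e1 f1) hDN.le
  have g2 : (0 : ℝ) ≤ ((E2 * F2 : ℤ) : ℝ) / (D * N) :=
    div_nonneg (by exact_mod_cast mul_nonneg e2 f2) hDN.le
  have g3 : (0 : ℝ) ≤ ((E3 * F3 : ℤ) : ℝ) / (D * N) :=
    div_nonneg (by exact_mod_cast mul_nonneg e3 f3) hDN.le
  have gs : ((E0 * F0 : ℤ) : ℝ) / (D * N) + ((E1 * F1 : ℤ) : ℝ) / (D * N) +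
      ((E2 * F2 : ℤ) : ℝ) / (D * N) + ((E3 * F3 : ℤ) : ℝ) / (D * N) = 1 := by
    rw [← add_div, ← add_div, ← add_div, div_eq_one_iff_eq hDN.ne']
    exact_mod_cast k1
  refine ⟨_, p_cell4_cvx Q hconv _ _ _ _ (hVQ _ v0) (hVQ _ v1) (hVQ _ v2) (hVQ _ v3) _ _ _ _
    g0 g1 g2 g3 gs, ?_⟩
  refine Prod.ext ?_ (Prod.ext ?_ ?_)
  · exact p_cell4_co D N 0 x.1 _ _ _ _ x0 x1 x2 x3 hD hN k2 rfl
  · exact p_cell4_co D N 0 x.2.1 _ _ _ _ y0 y1 y2 y3 hD hN k3 rfl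
  · exact p_cell4_co D N 0 x.2.2 _ _ _ _ z0 z1 z2 z3 hD hN k4 rfl

end Pool.Agent.Lib.MP_0bc52e_nt.K
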