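import Pool.Agent.Lib.MP_0bc52e_nt.K.Stm

namespace Pool.Agent.Lib.MP_0bc52e_nt.K

open Pool.Agent.Lib.MP_0bc52e_nt.LC Pool.Agent.Lib.MP_0bc52e_nt.T Pool.Agent.Lib.MP_0bc52e_nt.R

theorem p_clf : S_clf := by
  intro Q c hQ
  obtain ⟨x, y, z, hm, ⟨m1, h1⟩, ⟨m2, h2⟩, ⟨m3, h3⟩⟩ :=
    hQ (Int.ofNat (Nat.mod c 2)) (Int.ofNat (Nat.mod (Nat.div c 2) 2)) (Int.ofNat (Nat.div c 4))
  refine ⟨m1, m2, m3, ?_, ?_⟩
  · intro h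
    exact absurd h one_ne_zero
  · have e : ((clf c).pt m1 m2 m3).v = (x, y, z) := by
      show ((2 * m1 + Int.ofNat (Nat.mod c 2), 2 * m2 + Int.ofNat (Nat.mod (Nat.div c 2) 2),
        2 * m3 + Int.ofNat (Nat.div c 4)) : ℤ × ℤ × ℤ) = (x, y, z)
      rw [← h1, ← h2, ← h3]
      simp
    rw [e]
    exact hm

end Pool.Agent.Lib.MP_0bc52e_nt.K
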