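import Pool.Agent.Lib.MP_0bc52e_nt.K.Stm

set_option autoImplicit false

namespace Pool.Agent.Lib.MP_0bc52e_nt.K

open Pool.Agent.Lib.MP_0bc52e_nt.LC Pool.Agent.Lib.MP_0bc52e_nt.T Pool.Agent.Lib.MP_0bc52e_nt.R

theorem p_cls : S_cls := by
  have h0 : Cls PP0 := by
    rintro Q ⟨⟨V, hV⟩, h2, h3⟩
    refine ⟨?_, h2, h3⟩
    rw [hV]
    exact convex_convexHull ℝ _
  exact ⟨h0, fun Q hQ => h0 Q hQ.1, fun _ Q hQ => h0 Q hQ.1⟩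

end Pool.Agent.Lib.MP_0bc52e_nt.K
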