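import Pool.Agent.Lib.MP_0bc52e_nt.K.Stm

/-!
# MP_0bc52e_nt, soundness of the checker: the piece [coreU]
-/

set_option autoImplicit false

namespace Pool.Agent.Lib.MP_0bc52e_nt.K

open Pool.Agent.Lib.MP_0bc52e_nt.LC Pool.Agent.Lib.MP_0bc52e_nt.T Pool.Agent.Lib.MP_0bc52e_nt.R

theorem p_coreU (h_stU : S_stU) (h_loopU : S_loopU) : S_coreU := by
  intro PP P0 M p D V0 cells ofams syms hC hcell hM hP fuel c cs g hg hl
  exact h_loopU PP P0 M (P0 * M) P0 cells V0 ofams syms p p M D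
    (fun a1 b1 a2 b2 a3 b3 l d h =>
      h_stU PP P0 M p D V0 cells ofams syms a1 b1 a2 b2 a3 b3 l d hC hcell hM hP h)
    fuel c cs g hg hl

end Pool.Agent.Lib.MP_0bc52e_nt.K
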