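import Pool.Agent.Lib.MP_0bc52e_nt.K.Stm

/-!
MP_0bc52e_nt, soundness of the checker: [cov].
-/

namespace Pool.Agent.Lib.MP_0bc52e_nt.K

open Pool.Agent.Lib.MP_0bc52e_nt.LC Pool.Agent.Lib.MP_0bc52e_nt.T Pool.Agent.Lib.MP_0bc52e_nt.R

theorem p_cov (h_per : S_per) : S_cov := by
  intro PP PP' p V V' L L' hp hc hL hL' r
  have hp' : (0 : ℤ) < p := by exact_mod_cast hp
  obtain ⟨r0, hr0⟩ : ∃ r0 : ℕ, (r0 : ℤ) = r % p := ⟨(r % p).toNat, Int.toNat_of_nonneg (Int.emod_nonneg _ hp'.ne')⟩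
  have hlt : r0 < p := by
    have h := Int.emod_lt_of_pos r hp'
    rw [← hr0] at h
    exact_mod_cast h
  have hd : (p : ℤ) ∣ r - r0 := by
    rw [hr0]
    exact Int.dvd_self_sub_emod
  have h1 := (List.all_eq_true.mp hc) r0 (List.mem_range.mpr hlt)
  rw [Bool.or_eq_true] at h1
  have key : ∀ (PP : Set (ℝ × ℝ × ℝ) → Prop) (V : List P3) (a b : ℤ), (p : ℤ) ∣ a - b → Sd PP p V a → Sd PP p V b := by
    intro PP V a b hab hS u1 u2
    exact (h_per PP p V (u1, u2, b) (u1, u2, a) (by simp) (by simp) hab).2 (hS u1 u2)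
  rcases h1 with h1 | h1
  · left
    exact key PP V r0 r (by rw [← dvd_neg, neg_sub]; exact hd) (hL r0 (by omega) (by omega) h1)
  · right
    have hlt2 : (p - r0) % p < p := Nat.mod_lt _ hp
    refine key PP' V' (((p - r0) % p : ℕ) : ℤ) (-r) ?_ (hL' _ (by omega) (by omega) h1)
    have h2 : (((p - r0) % p : ℕ) : ℤ) = ((p : ℤ) - r0) % p := by
      rw [Int.natCast_mod, Nat.cast_sub hlt.le]
    rw [h2]
    have h3 : (p : ℤ) ∣ ((p : ℤ) - r0) - ((p : ℤ) - r0) % p := Int.dvd_self_sub_emod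
    have h4 : ((p : ℤ) - r0) % p - -r = (p : ℤ) + (r - r0) - (((p : ℤ) - r0) - ((p : ℤ) - r0) % p) := by ring
    rw [h4]
    exact dvd_sub (dvd_add (dvd_refl _) hd) h3

end Pool.Agent.Lib.MP_0bc52e_nt.K
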