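import Pool.Agent.Lib.MP_0bc52e_nt.K.Stm

/-!
[fam]: the families (MP_0bc52e_nt).
-/

namespace Pool.Agent.Lib.MP_0bc52e_nt.K

open Pool.Agent.Lib.MP_0bc52e_nt.LC Pool.Agent.Lib.MP_0bc52e_nt.T Pool.Agent.Lib.MP_0bc52e_nt.R

private theorem p_fam_cls {Q : Set (ℝ × ℝ × ℝ)} (hQ : PC3 Q) (b1 b2 b3 : ℤ) :
    ∃ f ∈ [Fam.mk 2 2 2 b1 b2 b3 1], ∃ m1 m2 m3 : ℤ, f.ok m3 ∧ ip (f.pt m1 m2 m3).v ∈ Q := by
  obtain ⟨x, y, z, h, ⟨m1, h1⟩, ⟨m2, h2⟩, ⟨m3, h3⟩⟩ := hQ b1 b2 b3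
  refine ⟨_, List.mem_singleton_self _, m1, m2, m3, ?_, ?_⟩
  · intro h0
    exact absurd h0 one_ne_zero
  · change ip (2 * m1 + b1, 2 * m2 + b2, 2 * m3 + b3) ∈ Q
    have e1 : 2 * m1 + b1 = x := by omega
    have e2 : 2 * m2 + b2 = y := by omega
    have e3 : 2 * m3 + b3 = z := by omega
    rw [e1, e2, e3]
    exact h

theorem p_fam : S_fam := by
  refine ⟨?_, ?_, ?_⟩
  · intro fs hfs Q hQ
    have hPC := hQ.2.1
    simp only [of0, List.mem_cons, List.not_mem_nil, or_false] at hfs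
    rcases hfs with rfl | rfl | rfl | rfl | rfl | rfl | rfl | rfl
    all_goals exact p_fam_cls hPC _ _ _
  · intro fs hfs Q hQ
    obtain ⟨-, x, y, hxy⟩ := hQ
    simp only [of1, List.mem_cons, List.not_mem_nil, or_false] at hfs
    subst hfs
    refine ⟨_, List.mem_singleton_self _, x, y, 0, fun _ => rfl, ?_⟩
    change ip (1 * x + 0, 1 * y + 0, 0 * 0 + -1) ∈ Q
    have e1 : 1 * x + 0 = x := by ring
    have e2 : 1 * y + 0 = y := by ring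
    have e3 : (0 : ℤ) * 0 + -1 = -1 := by ring
    rw [e1, e2, e3]
    exact hxy
  · intro b fs hfs Q hQ
    obtain ⟨-, x, hx, hxQ⟩ := hQ
    have hxe : x = (x.1, x.2.1, x.2.2) := rfl
    rcases hx with ⟨rfl, h3, hd⟩ | ⟨rfl, h3, hd1, hd2⟩ | ⟨rfl, h3, hd1, hd2⟩
    · simp only [ofh, List.mem_cons, List.not_mem_nil, or_false] at hfs
      subst hfs
      rcases hd with ⟨⟨m1, h1⟩, ⟨m2, h2⟩⟩ | ⟨⟨m1, h1⟩, ⟨m2, h2⟩⟩
      · refine ⟨_, List.mem_cons_self, m1, m2, 0, fun _ => rfl, ?_⟩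
        change ip (3 * m1 + 1, 3 * m2 + -1, 0 * 0 + -3) ∈ Q
        have e1 : 3 * m1 + 1 = x.1 := by omega
        have e2 : 3 * m2 + -1 = x.2.1 := by omega
        have e3 : (0 : ℤ) * 0 + -3 = x.2.2 := by omega
        rw [e1, e2, e3]
        exact hxQ
      · refine ⟨_, List.mem_cons_of_mem _ List.mem_cons_self, m1, m2, 0, fun _ => rfl, ?_⟩
        change ip (3 * m1 + -1, 3 * m2 + 1, 0 * 0 + -3) ∈ Q
        have e1 : 3 * m1 + -1 = x.1 := by omega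
        have e2 : 3 * m2 + 1 = x.2.1 := by omega
        have e3 : (0 : ℤ) * 0 + -3 = x.2.2 := by omega
        rw [e1, e2, e3]
        exact hxQ
    · simp only [ofh, List.mem_cons, List.not_mem_nil, or_false] at hfs
      subst hfs
      refine ⟨_, List.mem_cons_self, x.1 / 2, x.2.1 / 2, 0, fun _ => rfl, ?_⟩
      change ip (2 * (x.1 / 2) + 1, 2 * (x.2.1 / 2) + 0, 0 * 0 + -2) ∈ Q
      have e1 : 2 * (x.1 / 2) + 1 = x.1 := by omega
      have e2 : 2 * (x.2.1 / 2) + 0 = x.2.1 := by omega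
      have e3 : (0 : ℤ) * 0 + -2 = x.2.2 := by omega
      rw [e1, e2, e3]
      exact hxQ
    · simp only [ofh, List.mem_cons, List.not_mem_nil, or_false] at hfs
      subst hfs
      refine ⟨_, List.mem_cons_self, x.1 / 2, x.2.1 / 2, 0, fun _ => rfl, ?_⟩
      change ip (2 * (x.1 / 2) + 1, 2 * (x.2.1 / 2) + 1, 0 * 0 + -2) ∈ Q
      have e1 : 2 * (x.1 / 2) + 1 = x.1 := by omega
      have e2 : 2 * (x.2.1 / 2) + 1 = x.2.1 := by omega
      have e3 : (0 : ℤ) * 0 + -2 = x.2.2 := by omega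
      rw [e1, e2, e3]
      exact hxQ

end Pool.Agent.Lib.MP_0bc52e_nt.K
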