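import Pool.Agent.Lib.MP_0bc52e_nt.K.Stm
import Pool.Agent.Lib.MP_0bc52e_nt.T.P.fr1
import Pool.Agent.Lib.MP_0bc52e_nt.T.P.fr2
import Pool.Agent.Lib.MP_0bc52e_nt.R.StmR

/-!
[fin] From dead residues to the absence of polytopes (MP_0bc52e_nt).
-/

namespace Pool.Agent.Lib.MP_0bc52e_nt.K

open Pool.Agent.Lib.MP_0bc52e_nt.LC Pool.Agent.Lib.MP_0bc52e_nt.T Pool.Agent.Lib.MP_0bc52e_nt.R

theorem p_fin_core (hfr2 : T.S_fr2) (h_alv : S_alv) (h_Afin : S_Afin) (h_orig : S_orig)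
    (h_roots : R.S_roots) : S_fin := by
  intro p hD P hP hPC hH hCr
  obtain ⟨hD1, hD2, hD3⟩ := hD
  have hin : ∃ v : ℤ × ℤ × ℤ, Inn P (ip v) := by
    by_contra h
    push Not at h
    exact hH h
  obtain ⟨f, hf, hroot⟩ := h_roots P hP hin
  obtain ⟨h1, h2, h3, h4, -, -, -⟩ := hfr2 f hf P
  have hQ : IsLP3 (f ⁻¹' P) := h2 hP
  have hconv : Convex ℝ (f ⁻¹' P) := by
    obtain ⟨V, hV⟩ := hQ
    rw [hV]
    exact convex_convexHull ℝ _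
  have hroot' : (∃ R ∈ Theta, ∀ v ∈ R, ip v ∈ f ⁻¹' P) ∨ (∃ R ∈ Beta, ∀ v ∈ R, ip v ∈ f ⁻¹' P) ∨
      ∃ b : Fin 3, ∀ v ∈ Base b, ip v ∈ f ⁻¹' P := by
    rcases hroot with h | h | ⟨b, h, -, -⟩
    · exact Or.inl h
    · exact Or.inr (Or.inl h)
    · exact Or.inr (Or.inr ⟨b, h⟩)
  have h0 := h_orig _ hconv hroot'
  have hPP : PP0 (f ⁻¹' P) := ⟨hQ, h3 hPC, h0⟩
  obtain ⟨u, hu⟩ := h_alv _ p (h4 p hCr)
  rcases hroot with ⟨R, hR, h⟩ | ⟨R, hR, h⟩ | ⟨b, h, hx, hy⟩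
  · refine hD1 R hR u _ hPP ?_ hu
    intro v hv
    obtain ⟨w, hw, rfl⟩ := List.mem_map.mp hv
    exact h w hw
  · refine hD2 R hR u _ hPP ?_ hu
    intro v hv
    obtain ⟨w, hw, rfl⟩ := List.mem_map.mp hv
    exact h w hw
  · obtain ⟨ha, hb, hc⟩ := hD3 b
    exact h_Afin b p _ hPP h hx hy ha hb hc u hu

theorem p_fin (h_alv : S_alv) (h_Afin : S_Afin) (h_orig : S_orig) (h_roots : R.S_roots) : S_fin :=
  p_fin_core (T.p_fr2 T.p_fr1) h_alv h_Afin h_orig h_roots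

end Pool.Agent.Lib.MP_0bc52e_nt.K
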