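import Pool.Agent.Lib.MP_0bc52e_nt.K.Stm

/-!
[TK frH] (MP_0bc52e_nt): frames for a hole point.
-/

set_option autoImplicit false

namespace Pool.Agent.Lib.MP_0bc52e_nt.K

open Pool.Agent.Lib.MP_0bc52e_nt.LC Pool.Agent.Lib.MP_0bc52e_nt.T Pool.Agent.Lib.MP_0bc52e_nt.R

theorem p_frH_ip (u v : ℤ × ℤ × ℤ) : ip u = ip v ↔ u = v := by
  constructor
  · intro h
    simp only [ip, Prod.mk.injEq, Int.cast_inj] at h
    exact Prod.ext h.1 (Prod.ext h.2.1 h.2.2)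
  · rintro rfl
    rfl

theorem p_frH_base : ∀ b : Fin 3, ∀ v ∈ Base b, v.2.2 = 0 := by decide

theorem p_frH_swap : ∀ v ∈ Base 0, (v.2.1, v.1, (0 : ℤ)) ∈ Base 0 := by decide

/-- the frames which keep the first two coordinates -/
theorem p_frH_A (b : Fin 3) (s α β : ℤ) (x : ℤ × ℤ × ℤ) (hs : s = 1 ∨ s = -1)
    (hx : x = ((hp b).1 + (hp b).2.2 * α, (hp b).2.1 + (hp b).2.2 * β, (hp b).2.2 * s)) :
    ∃ f, IsFr f ∧ f (ip (0, 0, 0)) = ip (0, 0, 0) ∧
      (∀ v ∈ Base b, ∃ w ∈ Base b, f (ip v) = ip w) ∧ f (ip (hp b)) = ip x ∧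
      (∀ u w : ℤ × ℤ × ℤ, f (ip w) = ip u → u.2.2 = s * w.2.2) ∧
      (∀ u : ℤ × ℤ × ℤ, ∃ w : ℤ × ℤ × ℤ, f (ip w) = ip u) ∧
      ∀ y w : ℤ × ℤ × ℤ, f (ip w) = ip y → Ho b (y.1, y.2.1, s * y.2.2) → Ho b w := by
  have hss : s * s = 1 := by rcases hs with rfl | rfl <;> norm_num
  have key : ∀ u w : ℤ × ℤ × ℤ, fr (0, 0, 0) (1, 0, 0) (0, 1, 0) (α, β, s) (ip w) = ip u ↔
      u = (w.1 + w.2.2 * α, w.2.1 + w.2.2 * β, w.2.2 * s) := by
    intro u w
    have e : fr (0, 0, 0) (1, 0, 0) (0, 1, 0) (α, β, s) (ip w) =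
        ip (w.1 + w.2.2 * α, w.2.1 + w.2.2 * β, w.2.2 * s) := by
      simp only [fr, ip]
      push_cast
      refine Prod.ext ?_ (Prod.ext ?_ ?_) <;> simp
    rw [e, p_frH_ip]
    exact eq_comm
  refine ⟨fr (0, 0, 0) (1, 0, 0) (0, 1, 0) (α, β, s), ⟨(0, 0, 0), (1, 0, 0), (0, 1, 0), (α, β, s),
    ?_, fun v => rfl⟩, ?_, ?_, ?_, ?_, ?_, ?_⟩
  · rcases hs with rfl | rfl
    · left
      simp [det3]
    · right
      simp [det3]
  · rw [key]
    simp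
  · intro v hv
    refine ⟨v, hv, ?_⟩
    have h0 : v.2.2 = 0 := p_frH_base b v hv
    rw [key, h0, zero_mul, zero_mul, zero_mul, add_zero, add_zero]
    exact Prod.ext rfl (Prod.ext rfl h0)
  · rw [key]
    exact hx
  · intro u w h
    rw [key] at h
    rw [h]
    exact mul_comm _ _
  · intro u
    refine ⟨(u.1 - s * u.2.2 * α, u.2.1 - s * u.2.2 * β, s * u.2.2), ?_⟩
    rw [key]
    refine Prod.ext ?_ (Prod.ext ?_ ?_)
    · show u.1 = u.1 - s * u.2.2 * α + s * u.2.2 * α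
      ring
    · show u.2.1 = u.2.1 - s * u.2.2 * β + s * u.2.2 * β
      ring
    · show u.2.2 = s * u.2.2 * s
      calc u.2.2 = (s * s) * u.2.2 := by rw [hss, one_mul]
        _ = s * u.2.2 * s := by ring
  · intro y w h hH
    rw [key] at h
    subst h
    obtain ⟨w1, w2, w3⟩ := w
    have h3 : s * (w3 * s) = w3 := by
      calc s * (w3 * s) = (s * s) * w3 := by ring
        _ = w3 := by rw [hss, one_mul]
    simp only [Ho] at hH ⊢
    rw [h3] at hH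
    rcases hH with ⟨h1, h2, h4⟩ | ⟨h1, h2, h4⟩ | ⟨h1, h2, h4⟩
    · subst h2
      left
      refine ⟨h1, rfl, ?_⟩
      rcases h4 with h4 | h4
      · left
        constructor <;> omega
      · right
        constructor <;> omega
    · subst h2
      right
      left
      refine ⟨h1, rfl, ?_, ?_⟩ <;> omega
    · subst h2
      right
      right
      refine ⟨h1, rfl, ?_, ?_⟩ <;> omega

/-- the frames which exchange the first two coordinates -/
theorem p_frH_B (s α β : ℤ) (x : ℤ × ℤ × ℤ) (hs : s = 1 ∨ s = -1)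
    (hx : x = (-1 + 3 * α, 1 + 3 * β, 3 * s)) :
    ∃ f, IsFr f ∧ f (ip (0, 0, 0)) = ip (0, 0, 0) ∧
      (∀ v ∈ Base 0, ∃ w ∈ Base 0, f (ip v) = ip w) ∧ f (ip (hp 0)) = ip x ∧
      (∀ u w : ℤ × ℤ × ℤ, f (ip w) = ip u → u.2.2 = s * w.2.2) ∧
      (∀ u : ℤ × ℤ × ℤ, ∃ w : ℤ × ℤ × ℤ, f (ip w) = ip u) ∧
      ∀ y w : ℤ × ℤ × ℤ, f (ip w) = ip y → Ho 0 (y.1, y.2.1, s * y.2.2) → Ho 0 w := by
  have hss : s * s = 1 := by rcases hs with rfl | rfl <;> norm_num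
  have key : ∀ u w : ℤ × ℤ × ℤ, fr (0, 0, 0) (0, 1, 0) (1, 0, 0) (α, β, s) (ip w) = ip u ↔
      u = (w.2.1 + w.2.2 * α, w.1 + w.2.2 * β, w.2.2 * s) := by
    intro u w
    have e : fr (0, 0, 0) (0, 1, 0) (1, 0, 0) (α, β, s) (ip w) =
        ip (w.2.1 + w.2.2 * α, w.1 + w.2.2 * β, w.2.2 * s) := by
      simp only [fr, ip]
      push_cast
      refine Prod.ext ?_ (Prod.ext ?_ ?_) <;> simp
    rw [e, p_frH_ip]
    exact eq_comm
  refine ⟨fr (0, 0, 0) (0, 1, 0) (1, 0, 0) (α, β, s), ⟨(0, 0, 0), (0, 1, 0), (1, 0, 0), (α, β, s),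
    ?_, fun v => rfl⟩, ?_, ?_, ?_, ?_, ?_, ?_⟩
  · rcases hs with rfl | rfl
    · right
      simp [det3]
    · left
      simp [det3]
  · rw [key]
    simp
  · intro v hv
    refine ⟨(v.2.1, v.1, 0), p_frH_swap v hv, ?_⟩
    have h0 : v.2.2 = 0 := p_frH_base 0 v hv
    rw [key, h0, zero_mul, zero_mul, zero_mul, add_zero, add_zero]
  · rw [key, hx]
    rfl
  · intro u w h
    rw [key] at h
    rw [h]
    exact mul_comm _ _
  · intro u
    refine ⟨(u.2.1 - s * u.2.2 * β, u.1 - s * u.2.2 * α, s * u.2.2), ?_⟩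
    rw [key]
    refine Prod.ext ?_ (Prod.ext ?_ ?_)
    · show u.1 = u.1 - s * u.2.2 * α + s * u.2.2 * α
      ring
    · show u.2.1 = u.2.1 - s * u.2.2 * β + s * u.2.2 * β
      ring
    · show u.2.2 = s * u.2.2 * s
      calc u.2.2 = (s * s) * u.2.2 := by rw [hss, one_mul]
        _ = s * u.2.2 * s := by ring
  · intro y w h hH
    rw [key] at h
    subst h
    obtain ⟨w1, w2, w3⟩ := w
    have h3 : s * (w3 * s) = w3 := by
      calc s * (w3 * s) = (s * s) * w3 := by ring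
        _ = w3 := by rw [hss, one_mul]
    simp only [Ho] at hH ⊢
    rw [h3] at hH
    rcases hH with ⟨h1, h2, h4⟩ | ⟨h1, h2, h4⟩ | ⟨h1, h2, h4⟩
    · subst h2
      left
      refine ⟨h1, rfl, ?_⟩
      rcases h4 with h4 | h4
      · right
        constructor <;> omega
      · left
        constructor <;> omega
    · exact absurd h1 (by decide)
    · exact absurd h1 (by decide)

theorem p_frH : S_frH := by
  intro b s x hs hH
  obtain ⟨x1, x2, x3⟩ := x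
  have hss : s * s = 1 := by rcases hs with rfl | rfl <;> norm_num
  have h3 : ∀ n : ℤ, -s * x3 = -n → x3 = n * s := by
    intro n h
    calc x3 = (s * s) * x3 := by rw [hss, one_mul]
      _ = -(-s * x3) * s := by ring
      _ = n * s := by rw [h, neg_neg]
  simp only [Ho] at hH
  rcases hH with ⟨h1, h2, h4⟩ | ⟨h1, h2, h4, h5⟩ | ⟨h1, h2, h4, h5⟩
  · subst h1
    have e3 := h3 3 h2
    rcases h4 with ⟨⟨α, hα⟩, β, hβ⟩ | ⟨⟨α, hα⟩, β, hβ⟩
    · refine p_frH_A 0 s α β _ hs ?_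
      show (x1, x2, x3) = ((1 : ℤ) + 3 * α, (-1 : ℤ) + 3 * β, (3 : ℤ) * s)
      refine Prod.ext ?_ (Prod.ext ?_ e3)
      · show x1 = 1 + 3 * α
        omega
      · show x2 = -1 + 3 * β
        omega
    · refine p_frH_B s α β _ hs ?_
      refine Prod.ext ?_ (Prod.ext ?_ e3)
      · show x1 = -1 + 3 * α
        omega
      · show x2 = 1 + 3 * β
        omega
  · subst h1
    have e3 := h3 2 h2
    refine p_frH_A 1 s ((x1 - 1) / 2) (x2 / 2) _ hs ?_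
    show (x1, x2, x3) = ((1 : ℤ) + 2 * ((x1 - 1) / 2), (0 : ℤ) + 2 * (x2 / 2), (2 : ℤ) * s)
    refine Prod.ext ?_ (Prod.ext ?_ e3)
    · show x1 = 1 + 2 * ((x1 - 1) / 2)
      omega
    · show x2 = 0 + 2 * (x2 / 2)
      omega
  · subst h1
    have e3 := h3 2 h2
    refine p_frH_A 2 s ((x1 - 1) / 2) ((x2 - 1) / 2) _ hs ?_
    show (x1, x2, x3) = ((1 : ℤ) + 2 * ((x1 - 1) / 2), (1 : ℤ) + 2 * ((x2 - 1) / 2), (2 : ℤ) * s)
    refine Prod.ext ?_ (Prod.ext ?_ e3)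
    · show x1 = 1 + 2 * ((x1 - 1) / 2)
      omega
    · show x2 = 1 + 2 * ((x2 - 1) / 2)
      omega

end Pool.Agent.Lib.MP_0bc52e_nt.K
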