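import Pool.Agent.Lib.MP_0bc52e_nt.K.Stm

/-!
[TK frU] (MP_0bc52e_nt): frames for a point of level `s`.
-/

set_option autoImplicit false

namespace Pool.Agent.Lib.MP_0bc52e_nt.K

open Pool.Agent.Lib.MP_0bc52e_nt.LC Pool.Agent.Lib.MP_0bc52e_nt.T Pool.Agent.Lib.MP_0bc52e_nt.R

theorem p_frU_ip (u v : ℤ × ℤ × ℤ) : ip u = ip v ↔ u = v := by
  constructor
  · intro h
    simp only [ip, Prod.mk.injEq, Int.cast_inj] at h
    exact Prod.ext h.1 (Prod.ext h.2.1 h.2.2)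
  · rintro rfl
    rfl

theorem p_frU_fr (x w : ℤ × ℤ × ℤ) : fr (0, 0, 0) (1, 0, 0) (0, 1, 0) x (ip w) =
    ip (w.1 + w.2.2 * x.1, w.2.1 + w.2.2 * x.2.1, w.2.2 * x.2.2) := by
  simp only [fr, ip]
  push_cast
  refine Prod.ext ?_ (Prod.ext ?_ ?_) <;> simp

theorem p_frU_base : ∀ b : Fin 3, ∀ v ∈ Base b, v.2.2 = 0 := by decide

theorem p_frU : S_frU := by
  intro b s x hs hx
  have hss : s * s = 1 := by rcases hs with rfl | rfl <;> norm_num
  have key : ∀ u w : ℤ × ℤ × ℤ, fr (0, 0, 0) (1, 0, 0) (0, 1, 0) x (ip w) = ip u ↔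
      u = (w.1 + w.2.2 * x.1, w.2.1 + w.2.2 * x.2.1, w.2.2 * s) := by
    intro u w
    rw [p_frU_fr, p_frU_ip, hx]
    exact eq_comm
  refine ⟨fr (0, 0, 0) (1, 0, 0) (0, 1, 0) x, ⟨(0, 0, 0), (1, 0, 0), (0, 1, 0), x, ?_,
    fun v => rfl⟩, ?_, ?_, ?_, ?_, ?_, ?_⟩
  · rcases hs with rfl | rfl
    · left
      simp [det3, hx]
    · right
      simp [det3, hx]
  · rw [key]
    simp
  · intro v hv
    have h0 : v.2.2 = 0 := p_frU_base b v hv
    rw [key, h0, zero_mul, zero_mul, zero_mul, add_zero, add_zero]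
    exact Prod.ext rfl (Prod.ext rfl h0)
  · rw [key]
    refine Prod.ext ?_ (Prod.ext ?_ ?_) <;> simp [hx]
  · intro u w h
    rw [key] at h
    rw [h]
    exact mul_comm _ _
  · intro u
    refine ⟨(u.1 - s * u.2.2 * x.1, u.2.1 - s * u.2.2 * x.2.1, s * u.2.2), ?_⟩
    rw [key]
    refine Prod.ext ?_ (Prod.ext ?_ ?_)
    · show u.1 = u.1 - s * u.2.2 * x.1 + s * u.2.2 * x.1
      ring
    · show u.2.1 = u.2.1 - s * u.2.2 * x.2.1 + s * u.2.2 * x.2.1
      ring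
    · show u.2.2 = s * u.2.2 * s
      calc u.2.2 = (s * s) * u.2.2 := by rw [hss, one_mul]
        _ = s * u.2.2 * s := by ring
  · intro y w h hH
    rw [key] at h
    subst h
    obtain ⟨w1, w2, w3⟩ := w
    obtain ⟨x1, x2, x3⟩ := x
    have h3 : s * (w3 * s) = w3 := by
      calc s * (w3 * s) = (s * s) * w3 := by ring
        _ = w3 := by rw [hss, one_mul]
    simp only [Ho] at hH ⊢
    rw [h3] at hH
    rcases hH with ⟨h1, h2, h4⟩ | ⟨h1, h2, h4⟩ | ⟨h1, h2, h4⟩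
    · subst h2
      left
      refine ⟨h1, rfl, ?_⟩
      rcases h4 with h4 | h4
      · left
        constructor <;> omega
      · right
        constructor <;> omega
    · subst h2
      right
      left
      refine ⟨h1, rfl, ?_, ?_⟩ <;> omega
    · subst h2
      right
      right
      refine ⟨h1, rfl, ?_, ?_⟩ <;> omega

end Pool.Agent.Lib.MP_0bc52e_nt.K
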