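import Pool.Agent.Lib.MP_0bc52e_nt.K.Stm

/-!
The kill of a box of residues, for one modulus (MP_0bc52e_nt).
-/

namespace Pool.Agent.Lib.MP_0bc52e_nt.K

open Pool.Agent.Lib.MP_0bc52e_nt.LC Pool.Agent.Lib.MP_0bc52e_nt.T Pool.Agent.Lib.MP_0bc52e_nt.R

private theorem p_klP_unf (al be ga q : ℤ) (cells : List (List F4)) (a1 b1 a2 b2 a3 b3 : ℤ) (d : ℕ) (k : ℤ) :
    klO al be ga q cells a1 b1 a2 b2 a3 b3 d k =
  an (ps k) (an (ps (ad q (ng k)))
    (okS (mu al k) (mu be (ad q (ng k))) ga (sb 512 (Nat.mod (Nat.div d 1024) 1024))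
      (sb 512 (Nat.mod (Nat.div d 1048576) 1024)) (sb 512 (Nat.mod (Nat.div d 1073741824) 1024))
      a1 b1 a2 b2 a3 b3 (nth [F4.mk 0 0 0 (-1)] cells (Nat.div d 1099511627776)))) := rfl

theorem p_klP (h_op1 : S_op1) (h_op2 : S_op2) (h_nth : S_nth) (h_mnle : S_mnle) (h_okS : S_okS) : S_klP := by
  intro PP q V0 cells a1 b1 a2 b2 a3 b3 d k hcell hkl u hu1 hu2 hu3
  obtain ⟨-, -, -, -, hng, hmu, had⟩ := h_op1
  obtain ⟨-, hps, -, han, hmn, -, -, -, -, -⟩ := h_op2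
  rw [p_klP_unf] at hkl
  generalize sb 512 (Nat.mod (Nat.div d 1024) 1024) = w1 at hkl
  generalize sb 512 (Nat.mod (Nat.div d 1048576) 1024) = w2 at hkl
  generalize sb 512 (Nat.mod (Nat.div d 1073741824) 1024) = w3 at hkl
  generalize hF : nth [F4.mk 0 0 0 (-1)] cells (Nat.div d 1099511627776) = F at hkl
  rw [han, han, hps, hps, hmu, hmu, had, hng, one_mul, one_mul] at hkl
  obtain ⟨hk, hN, hok⟩ := hkl
  have hok' := h_okS _ _ _ _ _ _ _ _ _ _ _ _ _ hok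
  have hFm : F ∈ cells := by
    rcases h_nth _ [F4.mk 0 0 0 (-1)] cells (Nat.div d 1099511627776) with h | h
    · rw [hF] at h
      exact h
    · exfalso
      rw [hF] at h
      have h1 := hok' 0 0 0 (-1) (by rw [h]; exact List.mem_singleton.2 rfl)
      simp only [hmn] at h1
      simp only [le_refl, if_true, zero_mul, add_zero, mul_zero, zero_add] at h1
      omega
  intro Q hQ hV hal
  obtain ⟨y, hy, hyx⟩ := hcell F hFm (k • u - q • ((-w1, -w2, -w3) : ℤ × ℤ × ℤ)) (q + -k) hN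
    (by
      intro f hf
      obtain ⟨c1, c2, c3, dd⟩ := f
      have h1 := hok' c1 c2 c3 dd hf
      have e1 := h_mnle c1 a1 b1 1 u.1 hu1
      have e2 := h_mnle c2 a2 b2 1 u.2.1 hu2
      have e3 := h_mnle c3 a3 b3 1 u.2.2 hu3
      rw [mul_one] at e1 e2 e3
      have e4 : k * (mn c1 a1 b1 + mn c2 a2 b2 + mn c3 a3 b3) ≤ k * (c1 * u.1 + c2 * u.2.1 + c3 * u.2.2) :=
        mul_le_mul_of_nonneg_left (by linarith) hk.le
      show 0 ≤ c1 * (k * u.1 - q * -w1) + c2 * (k * u.2.1 - q * -w2) + c3 * (k * u.2.2 - q * -w3) + dd * (q + -k)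
      nlinarith [e4, h1])
    Q hQ hV
  refine hal k hk (by omega) ((-w1, -w2, -w3) : ℤ × ℤ × ℤ) y hy ?_
  rw [← hyx, sub_eq_add_neg]

end Pool.Agent.Lib.MP_0bc52e_nt.K
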