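import Pool.Agent.Lib.MP_0bc52e_nt.K.Stm

/-!
# MP_0bc52e_nt, piece [TK klU]
-/

set_option autoImplicit false

namespace Pool.Agent.Lib.MP_0bc52e_nt.K

open Pool.Agent.Lib.MP_0bc52e_nt.LC Pool.Agent.Lib.MP_0bc52e_nt.T Pool.Agent.Lib.MP_0bc52e_nt.R

private theorem p_klU_ip0 : ip (0, 0, 0) = 0 := by
  unfold ip
  simp

private theorem p_klU_smul (a : ℤ) (x : ℤ × ℤ × ℤ) : ip (a • x) = (a : ℝ) • ip x := by
  obtain ⟨x1, x2, x3⟩ := x
  unfold ip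
  simp

private theorem p_klU_arith {P0 M p k c1 c2 c3 d u1 u2 u3 w1 w2 w3 m1 m2 m3 : ℤ} (hk0 : 0 < k)
    (hkN : 0 < P0 - k) (hM : 0 < M) (hP : P0 ≤ p)
    (h1 : m1 * p ≤ c1 * (M * u1)) (h2 : m2 * p ≤ c2 * (M * u2)) (h3 : m3 * p ≤ c3 * (M * u3))
    (h : 0 ≤ P0 * k * (m1 + m2 + m3) + d * (M * (P0 - k)) +
      P0 * M * (c1 * w1 + c2 * w2 + c3 * w3)) :
    0 ≤ c1 * (P0 * (k * u1 + p * w1)) + c2 * (P0 * (k * u2 + p * w2)) +
      c3 * (P0 * (k * u3 + p * w3)) + d * (p * (P0 - k)) := by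
  have hP0 : 0 < P0 := by linarith
  have hp : 0 < p := by linarith
  have e1 : M * (c1 * (P0 * (k * u1 + p * w1)) + c2 * (P0 * (k * u2 + p * w2)) +
      c3 * (P0 * (k * u3 + p * w3)) + d * (p * (P0 - k))) =
      P0 * k * ((c1 * (M * u1) - m1 * p) + (c2 * (M * u2) - m2 * p) + (c3 * (M * u3) - m3 * p)) +
      p * (P0 * k * (m1 + m2 + m3) + d * (M * (P0 - k)) +
        P0 * M * (c1 * w1 + c2 * w2 + c3 * w3)) := by
    ring
  have e2 : 0 ≤ M * (c1 * (P0 * (k * u1 + p * w1)) + c2 * (P0 * (k * u2 + p * w2)) +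
      c3 * (P0 * (k * u3 + p * w3)) + d * (p * (P0 - k))) := by
    rw [e1]
    have h4 : 0 ≤ P0 * k *
        ((c1 * (M * u1) - m1 * p) + (c2 * (M * u2) - m2 * p) + (c3 * (M * u3) - m3 * p)) :=
      mul_nonneg (mul_nonneg hP0.le hk0.le) (by linarith)
    have h5 := mul_nonneg hp.le h
    linarith
  exact nonneg_of_mul_nonneg_right e2 hM

theorem p_klU (h_op1 : S_op1) (h_op2 : S_op2) (h_nth : S_nth) (h_mnle : S_mnle) (h_okS : S_okS) :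
    S_klU := by
  intro PP P0 M p V0 cells a1 b1 a2 b2 a3 b3 d k hCls hCell hM hP hk u h1 h2 h3
  obtain ⟨_, _, _, _, hng, hmu, had⟩ := h_op1
  obtain ⟨_, hps, _, han, hmn, _, _, _, _, _⟩ := h_op2
  unfold klO at hk
  rw [han, han, hps, hps, had, hng] at hk
  obtain ⟨hk0, hkN, hok⟩ := hk
  rw [← sub_eq_add_neg] at hkN
  generalize sb 512 (Nat.mod (Nat.div d 1024) 1024) = w1 at hok
  generalize sb 512 (Nat.mod (Nat.div d 1048576) 1024) = w2 at hok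
  generalize sb 512 (Nat.mod (Nat.div d 1073741824) 1024) = w3 at hok
  rw [hmu, hmu, ← sub_eq_add_neg] at hok
  have hok' := h_okS _ _ _ _ _ _ _ _ _ _ _ _ _ hok
  rcases h_nth _ [F4.mk 0 0 0 (-1)] cells (Nat.div d 1099511627776) with hF | hF
  swap
  · exfalso
    have h4 := hok' 0 0 0 (-1) (by rw [hF]; exact List.mem_cons_self)
    rw [hmn, hmn, hmn] at h4
    have h5 := mul_pos hM hkN
    norm_num at h4
    linarith
  generalize nth [F4.mk 0 0 0 (-1)] cells (Nat.div d 1099511627776) = F at hok' hF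
  intro Q hQ hV hA
  obtain ⟨hconv, _, h0⟩ := hCls Q hQ
  rw [p_klU_ip0] at h0
  have hP0 : 0 < P0 := by linarith
  have hp : 0 < p := by linarith
  have hN : 0 < p * (P0 - k) := mul_pos hp hkN
  obtain ⟨u1, u2, u3⟩ := u
  obtain ⟨y, hy, hyx⟩ := hCell F hF
    (P0 • ((k • (u1, u2, u3) : ℤ × ℤ × ℤ) - p • ((-w1, -w2, -w3) : ℤ × ℤ × ℤ)))
    (p * (P0 - k)) hN (by
      rintro ⟨c1, c2, c3, e⟩ hf
      have h4 := p_klU_arith (u1 := u1) (u2 := u2) (u3 := u3) hk0 hkN hM hP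
        (h_mnle c1 a1 b1 p _ h1) (h_mnle c2 a2 b2 p _ h2) (h_mnle c3 a3 b3 p _ h3)
        (hok' c1 c2 c3 e hf)
      show 0 ≤ c1 * (P0 * (k * u1 - p * (-w1))) + c2 * (P0 * (k * u2 - p * (-w2))) +
        c3 * (P0 * (k * u3 - p * (-w3))) + e * (p * (P0 - k))
      have e1 : ∀ a b : ℤ, a - p * (-b) = a + p * b := fun a b => by ring
      rw [e1, e1, e1]
      exact h4) Q hQ hV
  rw [p_klU_smul] at hyx
  have hpk : k < p := by linarith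
  have hP0r : (0 : ℝ) < (P0 : ℝ) := by exact_mod_cast hP0
  have hpkr : (0 : ℝ) < ((p - k : ℤ) : ℝ) := by
    have : 0 < p - k := by linarith
    exact_mod_cast this
  have hNr : (0 : ℝ) < ((p * (P0 - k) : ℤ) : ℝ) := by exact_mod_cast hN
  have ht1 : ((p * (P0 - k) : ℤ) : ℝ) ≤ (P0 : ℝ) * ((p - k : ℤ) : ℝ) := by
    have h4 : p * (P0 - k) ≤ P0 * (p - k) := by nlinarith
    exact_mod_cast h4
  have ht : ((p * (P0 - k) : ℤ) : ℝ) / ((P0 : ℝ) * ((p - k : ℤ) : ℝ)) ∈ Set.Icc (0 : ℝ) 1 :=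
    ⟨div_nonneg hNr.le (mul_pos hP0r hpkr).le, (div_le_one (mul_pos hP0r hpkr)).2 ht1⟩
  have hty := hconv.smul_mem_of_zero_mem h0 hy ht
  refine hA k hk0 hpk (-w1, -w2, -w3) _ hty ?_
  rw [smul_smul]
  have e2 : ((p - k : ℤ) : ℝ) * (((p * (P0 - k) : ℤ) : ℝ) / ((P0 : ℝ) * ((p - k : ℤ) : ℝ))) =
      (P0 : ℝ)⁻¹ * ((p * (P0 - k) : ℤ) : ℝ) := by
    field_simp
  rw [e2, mul_smul, hyx, smul_smul, inv_mul_cancel₀ hP0r.ne', one_smul]

end Pool.Agent.Lib.MP_0bc52e_nt.K
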