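import Pool.Agent.Lib.MP_0bc52e_nt.K.Stm

/-!
# MP_0bc52e_nt, section K, piece [TK loop]
-/

set_option autoImplicit false

namespace Pool.Agent.Lib.MP_0bc52e_nt.K

open Pool.Agent.Lib.MP_0bc52e_nt.LC Pool.Agent.Lib.MP_0bc52e_nt.T Pool.Agent.Lib.MP_0bc52e_nt.R

private theorem p_loop_dig (hst : ∀ (α : Type) (n : ℕ) (f : ℕ → α), st n f = f n)
    (ih : ℕ → List ℕ → G → Bool) (P : G → Prop)
    (hih : ∀ (c : ℕ) (cs : List ℕ) (g : G), ih c cs g = true → P g)
    (c : ℕ) (cs : List ℕ) (f : ℕ → G) (g : G) (hf : ∀ d : ℕ, P (f d) → P g)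
    (h : dig ih c cs f g = true) : P g := by
  cases c with
  | zero =>
    have h1 : pop ih cs g = true := h
    cases cs with
    | nil =>
      have h2 : false = true := h1
      exact absurd h2 (by decide)
    | cons a cs =>
      have h2 : st a (fun c => ih c cs g) = true := h1
      rw [hst] at h2
      exact hih a cs g h2
  | succ k =>
    have h1 : st (Nat.div (Nat.succ k) 4503599627370496)
      (fun c' => ih c' cs (st (Nat.mod (Nat.succ k) 4503599627370496) f)) = true := h
    rw [hst, hst] at h1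
    exact hf _ (hih _ _ _ h1)

theorem p_loop (h_op1 : S_op1) : S_loop := by
  intro PP al be ga q dl cells V0 ofams syms p κ M D hO hX fuel
  obtain ⟨hst, -⟩ := h_op1
  induction fuel with
  | zero =>
    intro c cs g h
    have h1 : false = true := h
    exact absurd h1 (by decide)
  | succ n ih =>
    intro c cs g h
    cases g with
    | nil => exact True.intro
    | bad =>
      have h1 : false = true := h
      exact absurd h1 (by decide)
    | o a1 b1 a2 b2 a3 b3 l =>
      have h1 : dig (loop al be ga q dl cells V0 ofams syms n) c cs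
        (stO al be ga q dl cells V0 ofams syms a1 b1 a2 b2 a3 b3 l)
        (G.o a1 b1 a2 b2 a3 b3 l) = true := h
      exact p_loop_dig hst _ (All PP p κ M D V0) ih c cs _ _
        (fun d hd => hO a1 b1 a2 b2 a3 b3 l d hd) h1
    | x V u1 u2 u3 f dl' a0 b0 a1 b1 a2 b2 a3 b3 l =>
      have h1 : dig (loop al be ga q dl cells V0 ofams syms n) c cs
        (stX q V u1 u2 u3 f dl' a0 b0 a1 b1 a2 b2 a3 b3 l)
        (G.x V u1 u2 u3 f dl' a0 b0 a1 b1 a2 b2 a3 b3 l) = true := h
      exact p_loop_dig hst _ (All PP p κ M D V0) ih c cs _ _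
        (fun d hd => hX V u1 u2 u3 f dl' a0 b0 a1 b1 a2 b2 a3 b3 l d hd) h1

end Pool.Agent.Lib.MP_0bc52e_nt.K
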