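import Pool.Agent.Lib.MP_0bc52e_nt.K.Stm

/-!
Soundness of the loop of the checker for lists without `x` goals (MP_0bc52e_nt).
-/

namespace Pool.Agent.Lib.MP_0bc52e_nt.K

open Pool.Agent.Lib.MP_0bc52e_nt.LC Pool.Agent.Lib.MP_0bc52e_nt.T Pool.Agent.Lib.MP_0bc52e_nt.R

/-- The list has no `x` goals. -/
def p_loopU_NX (g : G) : Prop :=
  G.rec True True (fun _ _ _ _ _ _ _ ih => ih) (fun _ _ _ _ _ _ _ _ _ _ _ _ _ _ _ _ => False) g

private lemma nx_gd (b : Bool) (l : G) (hl : p_loopU_NX l) : p_loopU_NX (gd b l) := by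
  cases b
  · show True
    trivial
  · exact hl

private lemma nx_sel (n : ℕ) (a b c d : G) (ha : p_loopU_NX a) (hb : p_loopU_NX b) (hc : p_loopU_NX c)
    (hd : p_loopU_NX d) : p_loopU_NX (sel n a b c d) := by
  rcases n with _ | _ | _ | n
  · exact ha
  · exact hb
  · exact hc
  · exact hd

private lemma nx_bad : p_loopU_NX G.bad := by
  show True
  trivial

private lemma nx_spO (dl : ℕ) (a1 b1 a2 b2 a3 b3 : ℤ) (l : G) (ax m : ℕ) (hl : p_loopU_NX l) :
    p_loopU_NX (spO dl a1 b1 a2 b2 a3 b3 l ax m) := by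
  unfold spO
  exact nx_sel ax _ _ _ _ hl hl hl nx_bad

private lemma nx_stO (h_op1 : S_op1) (al be ga q : ℤ) (cells : List (List F4)) (V0 : List P3) (ofams : List (List Fam))
    (syms : List M3) (a1 b1 a2 b2 a3 b3 : ℤ) (l : G) (d : ℕ) (hl : p_loopU_NX l) :
    p_loopU_NX (stO al be ga q 0 cells V0 ofams syms a1 b1 a2 b2 a3 b3 l d) := by
  have hst := h_op1.1
  unfold stO
  apply nx_sel
  · rw [hst, hst]
    exact nx_spO _ _ _ _ _ _ _ _ _ _ hl
  · exact nx_gd _ _ hl
  · exact nx_bad
  · exact nx_bad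

private lemma dig_or (h_op1 : S_op1) (ih : ℕ → List ℕ → G → Bool) (c : ℕ) (cs : List ℕ) (f : ℕ → G) (g : G)
    (h : dig ih c cs f g = true) :
    (∃ c' cs', ih c' cs' g = true) ∨ ∃ c' d, ih c' cs (f d) = true := by
  have hst := h_op1.1
  rcases c with _ | c
  · left
    have h' : pop ih cs g = true := h
    rcases cs with _ | ⟨c', cs'⟩
    · exact absurd h' (by intro h0; exact Bool.noConfusion (show false = true from h0))
    · have h2 : st c' (fun c => ih c cs' g) = true := h'
      rw [hst] at h2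
      exact ⟨c', cs', h2⟩
  · right
    have h' : st (Nat.div (c + 1) 4503599627370496)
        (fun c' => ih c' cs (st (Nat.mod (c + 1) 4503599627370496) f)) = true := h
    rw [hst] at h'
    simp only [hst] at h'
    exact ⟨_, _, h'⟩

/-- [loopU] -/
theorem p_loopU (h_op1 : S_op1) (h_op2 : S_op2) : S_loopU := by
  have _ := h_op2
  intro PP al be ga q cells V0 ofams syms p κ M D hO fuel
  induction fuel with
  | zero =>
    intro c cs g _ h
    exact absurd h (by intro h0; exact Bool.noConfusion (show false = true from h0))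
  | succ n ih =>
    intro c cs g hg h
    cases g with
    | nil =>
      show True
      trivial
    | bad =>
      exact absurd h (by intro h0; exact Bool.noConfusion (show false = true from h0))
    | o a1 b1 a2 b2 a3 b3 l =>
      have hl : p_loopU_NX l := hg
      have h' : dig (loop al be ga q 0 cells V0 ofams syms n) c cs
          (stO al be ga q 0 cells V0 ofams syms a1 b1 a2 b2 a3 b3 l) (G.o a1 b1 a2 b2 a3 b3 l) = true := h
      rcases dig_or h_op1 _ _ _ _ _ h' with ⟨c', cs', h1⟩ | ⟨c', d, h1⟩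
      · exact ih c' cs' _ hg h1
      · have h2 := ih c' cs _ (nx_stO h_op1 al be ga q cells V0 ofams syms a1 b1 a2 b2 a3 b3 l d hl) h1
        exact hO a1 b1 a2 b2 a3 b3 l d h2
    | x V u1 u2 u3 f dl a0 b0 a1 b1 a2 b2 a3 b3 l =>
      exact False.elim hg

end Pool.Agent.Lib.MP_0bc52e_nt.K
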