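import Pool.Agent.Lib.MP_0bc52e_nt.K.Stm

set_option autoImplicit false

namespace Pool.Agent.Lib.MP_0bc52e_nt.K

open Pool.Agent.Lib.MP_0bc52e_nt.LC Pool.Agent.Lib.MP_0bc52e_nt.T Pool.Agent.Lib.MP_0bc52e_nt.R

theorem p_mnle (h_op2 : S_op2) : S_mnle := by
  intro c lo hi κ X hX
  obtain ⟨h1, h2⟩ := hX
  rw [h_op2.2.2.2.2.1 c lo hi]
  split_ifs with hc
  · rw [mul_assoc]
    exact mul_le_mul_of_nonneg_left h1 hc
  · push Not at hc
    rw [mul_assoc]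
    exact mul_le_mul_of_nonpos_left h2 hc.le

end Pool.Agent.Lib.MP_0bc52e_nt.K
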