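import Pool.Agent.Lib.MP_0bc52e_nt.K.Stm

/-!
# MP_0bc52e_nt, soundness of the checker: the piece [nth]
-/

set_option autoImplicit false

namespace Pool.Agent.Lib.MP_0bc52e_nt.K

open Pool.Agent.Lib.MP_0bc52e_nt.LC Pool.Agent.Lib.MP_0bc52e_nt.T Pool.Agent.Lib.MP_0bc52e_nt.R

theorem p_nth : S_nth := by
  intro α df l
  induction l with
  | nil => intro n; right; rfl
  | cons a l ih =>
    intro n
    cases n with
    | zero => left; exact List.mem_cons_self
    | succ n =>
      have h : nth df (a :: l) (n + 1) = nth df l n := rfl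
      rw [h]
      rcases ih n with h1 | h1
      · left; exact List.mem_cons_of_mem _ h1
      · right; exact h1

end Pool.Agent.Lib.MP_0bc52e_nt.K
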