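import Pool.Agent.Lib.MP_0bc52e_nt.K.Stm

/-!
One form of a shadow is nonnegative (MP_0bc52e_nt).
-/

set_option autoImplicit false

namespace Pool.Agent.Lib.MP_0bc52e_nt.K

open Pool.Agent.Lib.MP_0bc52e_nt.LC Pool.Agent.Lib.MP_0bc52e_nt.T Pool.Agent.Lib.MP_0bc52e_nt.R

theorem p_okG (h_op1 : S_op1) (h_op2 : S_op2) (h_mnle : S_mnle) : S_okG := by
  intro N q1 q2 q3 t1 t2 t3 e1 e2 e3 a0 b0 a1 b1 a2 b2 a3 b3 n1 n2 n3 m1 m2 m3 κ M hN hκ hM h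
    hb0 hb1 hb2 hb3
  obtain ⟨-, hsi, -, -, hng, hmu, had⟩ := h_op1
  obtain ⟨hnn, -, -, -, -, hdt, -⟩ := h_op2
  unfold okG at h
  simp only [hsi, hng, hmu, had, hnn, hdt] at h
  have k0 := h_mnle (n1 * (N * e1 + -q1) + n2 * (N * e2 + -q2) + n3 * (N * e3 + -q3))
    a0 b0 κ M hb0
  have k1 := h_mnle (t1 * n1) a1 b1 κ (M * m1) hb1
  have k2 := h_mnle (t2 * n2) a2 b2 κ (M * m2) hb2
  have k3 := h_mnle (t3 * n3) a3 b3 κ (M * m3) hb3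
  have h1 := mul_nonneg h hκ.le
  have h2 := mul_le_mul_of_nonneg_left (add_le_add k1 (add_le_add k2 k3)) hN.le
  have h3 : 0 ≤ M * (n1 * (N * (t1 * m1 + e1) - q1) + n2 * (N * (t2 * m2 + e2) - q2) +
      n3 * (N * (t3 * m3 + e3) - q3)) := by
    nlinarith [h1, h2, k0]
  exact (mul_nonneg_iff_of_pos_left hM).1 h3

end Pool.Agent.Lib.MP_0bc52e_nt.K
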