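import Pool.Agent.Lib.MP_0bc52e_nt.K.Stm

/-!
Piece [okS] (MP_0bc52e_nt): the forms of a cell.
-/

set_option autoImplicit false

namespace Pool.Agent.Lib.MP_0bc52e_nt.K

open Pool.Agent.Lib.MP_0bc52e_nt.LC Pool.Agent.Lib.MP_0bc52e_nt.T Pool.Agent.Lib.MP_0bc52e_nt.R

theorem p_okS (h_op1 : S_op1) (h_op2 : S_op2) : S_okS := by
  intro k N p w1 w2 w3 a1 b1 a2 b2 a3 b3 l
  obtain ⟨-, -, -, -, -, hmu, had⟩ := h_op1
  obtain ⟨hnn, -, -, han, -, hdt, -⟩ := h_op2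
  induction l with
  | nil =>
    intro _ c1 c2 c3 d hm
    exact absurd hm (List.not_mem_nil)
  | cons f l ih =>
    intro h c1 c2 c3 d hm
    have h1 : an (okF k N p w1 w2 w3 a1 b1 a2 b2 a3 b3 f)
      (okS k N p w1 w2 w3 a1 b1 a2 b2 a3 b3 l) = true := h
    rw [han] at h1
    rcases List.mem_cons.1 hm with h2 | h2
    · subst h2
      have h3 : nn (ad (mu k (ad (mn c1 a1 b1) (ad (mn c2 a2 b2) (mn c3 a3 b3))))
        (ad (mu d N) (mu p (dt c1 c2 c3 w1 w2 w3)))) = true := h1.1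
      rw [hnn, hdt] at h3
      simp only [hmu, had] at h3
      linarith
    · exact ih h1.2 c1 c2 c3 d h2

end Pool.Agent.Lib.MP_0bc52e_nt.K
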