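import Pool.Agent.Lib.MP_0bc52e_nt.K.Stm

set_option autoImplicit false

namespace Pool.Agent.Lib.MP_0bc52e_nt.K

open Pool.Agent.Lib.MP_0bc52e_nt.LC Pool.Agent.Lib.MP_0bc52e_nt.T Pool.Agent.Lib.MP_0bc52e_nt.R

theorem p_op1_st (α : Type) (n : ℕ) (f : ℕ → α) : st n f = f n := by
  cases n <;> rfl

theorem p_op1_sb (m n : ℕ) : sb m n = (m : ℤ) - n := by
  unfold sb
  have key : ∀ k : ℕ, n - m = k →
      (Nat.rec (Int.ofNat (Nat.sub m n)) (fun k _ => Int.negSucc k) k : ℤ) = (m : ℤ) - n := by
    intro k hk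
    cases k with
    | zero =>
      show ((m - n : ℕ) : ℤ) = (m : ℤ) - n
      omega
    | succ k =>
      show Int.negSucc k = (m : ℤ) - n
      rw [Int.negSucc_eq]
      omega
  exact key _ rfl

theorem p_op1_ngn (n : ℕ) : ngn n = -(n : ℤ) := by
  cases n with
  | zero => rfl
  | succ n => rfl

theorem p_op1_ng (a : ℤ) : ng a = -a := by
  cases a with
  | ofNat n => exact p_op1_ngn n
  | negSucc n => rfl

theorem p_op1_mu (a b : ℤ) : mu a b = a * b := by
  cases a with
  | ofNat m =>
    cases b with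
    | ofNat n =>
      show ((m * n : ℕ) : ℤ) = (m : ℤ) * (n : ℤ)
      push_cast; ring
    | negSucc n =>
      show ngn (m * (n + 1)) = (m : ℤ) * Int.negSucc n
      rw [p_op1_ngn, Int.negSucc_eq]
      push_cast; ring
  | negSucc m =>
    cases b with
    | ofNat n =>
      show ngn ((m + 1) * n) = Int.negSucc m * (n : ℤ)
      rw [p_op1_ngn, Int.negSucc_eq]
      push_cast; ring
    | negSucc n =>
      show (((m + 1) * (n + 1) : ℕ) : ℤ) = Int.negSucc m * Int.negSucc n
      rw [Int.negSucc_eq, Int.negSucc_eq]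
      push_cast; ring

theorem p_op1_ad (a b : ℤ) : ad a b = a + b := by
  cases a with
  | ofNat m =>
    cases b with
    | ofNat n =>
      show ((m + n : ℕ) : ℤ) = (m : ℤ) + (n : ℤ)
      push_cast; ring
    | negSucc n =>
      show sb m (n + 1) = (m : ℤ) + Int.negSucc n
      rw [p_op1_sb, Int.negSucc_eq]
      push_cast; ring
  | negSucc m =>
    cases b with
    | ofNat n =>
      show sb n (m + 1) = Int.negSucc m + (n : ℤ)
      rw [p_op1_sb, Int.negSucc_eq]
      push_cast; ring
    | negSucc n =>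
      show Int.negSucc (m + n + 1) = Int.negSucc m + Int.negSucc n
      rw [Int.negSucc_eq, Int.negSucc_eq, Int.negSucc_eq]
      push_cast; ring

theorem p_op1 : S_op1 := by
  refine ⟨p_op1_st, ?_, p_op1_sb, p_op1_ngn, p_op1_ng, p_op1_mu, p_op1_ad⟩
  intro α i f
  cases i with
  | ofNat n => exact p_op1_st α n (fun m => f (Int.ofNat m))
  | negSucc n => exact p_op1_st α n (fun m => f (Int.negSucc m))

end Pool.Agent.Lib.MP_0bc52e_nt.K
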