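import Pool.Agent.Lib.MP_0bc52e_nt.K.Stm

/-!
MP_0bc52e_nt, Theorem (T13): piece [op2], the arithmetic functions.
-/

namespace Pool.Agent.Lib.MP_0bc52e_nt.K

open Pool.Agent.Lib.MP_0bc52e_nt.LC Pool.Agent.Lib.MP_0bc52e_nt.T Pool.Agent.Lib.MP_0bc52e_nt.R

theorem p_op2 (h_op1 : S_op1) : S_op2 := by
  obtain ⟨hst, hsi, hsb, hngn, hng, hmu, had⟩ := h_op1
  refine ⟨?_, ?_, ?_, ?_, ?_, ?_, ?_, ?_, ?_, ?_⟩
  · intro a
    cases a with
    | ofNat n =>
      show true = true ↔ _
      exact ⟨fun _ => Int.natCast_nonneg n, fun _ => rfl⟩
    | negSucc n =>
      show false = true ↔ _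
      constructor
      · intro h; exact absurd h (by decide)
      · intro h; exact absurd h (by have := Int.negSucc_lt_zero n; omega)
  · intro a
    cases a with
    | ofNat n =>
      cases n with
      | zero =>
        show false = true ↔ _
        simp
      | succ n =>
        show true = true ↔ _
        constructor
        · intro _; show (0 : ℤ) < ((n + 1 : ℕ) : ℤ); omega
        · intro _; rfl
    | negSucc n =>
      show false = true ↔ _
      constructor
      · intro h; exact absurd h (by decide)
      · intro h; exact absurd h (by have := Int.negSucc_lt_zero n; omega)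
  · intro a b
    cases a with
    | ofNat m =>
      cases b with
      | ofNat n =>
        show Nat.beq m n = true ↔ _
        rw [Nat.beq_eq]
        constructor
        · intro h; rw [h]
        · intro h; exact Int.ofNat.inj h
      | negSucc n =>
        show false = true ↔ _
        constructor
        · intro h; exact absurd h (by decide)
        · intro h; exact absurd h (by intro h'; cases h')
    | negSucc m =>
      cases b with
      | ofNat n =>
        show false = true ↔ _
        constructor
        · intro h; exact absurd h (by decide)
        · intro h; exact absurd h (by intro h'; cases h')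
      | negSucc n =>
        show Nat.beq m n = true ↔ _
        rw [Nat.beq_eq]
        constructor
        · intro h; rw [h]
        · intro h; exact Int.negSucc.inj h
  · intro a b
    cases a
    · show false = true ↔ _
      simp
    · show b = true ↔ _
      simp
  · intro c lo hi
    cases c with
    | ofNat n =>
      show mu (Int.ofNat n) lo = _
      rw [hmu]
      exact (if_pos (Int.natCast_nonneg n)).symm
    | negSucc n =>
      show mu (Int.negSucc n) hi = _
      rw [hmu]
      exact (if_neg (by have := Int.negSucc_lt_zero n; omega)).symm
  · intro a b c x y z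
    unfold dt
    simp only [had, hmu]
    ring
  · intro a q hq
    cases q with
    | ofNat n =>
      cases a with
      | ofNat m => rfl
      | negSucc m =>
        show sb n (Nat.succ (Nat.mod m n)) = _
        rw [hsb, Int.negSucc_emod m hq]
        show (n : ℤ) - ((m % n + 1 : ℕ) : ℤ) = (n : ℤ) - 1 - (m : ℤ) % (n : ℤ)
        push_cast
        ring
    | negSucc n => exact absurd hq (by have := Int.negSucc_lt_zero n; omega)
  · intro q a1 a2 a3
    unfold cod
    simp only [had, hmu]
  · intro α a b c d
    exact ⟨rfl, rfl, rfl, fun k => rfl⟩
  · intro l
    exact ⟨rfl, rfl⟩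

end Pool.Agent.Lib.MP_0bc52e_nt.K
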