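import Pool.Agent.Lib.MP_0bc52e_nt.K.Stm

/-!
Soundness of the checker (MP_0bc52e_nt): the boxes of `pushF` cover the family.
-/

set_option autoImplicit false

namespace Pool.Agent.Lib.MP_0bc52e_nt.K

open Pool.Agent.Lib.MP_0bc52e_nt.LC Pool.Agent.Lib.MP_0bc52e_nt.T Pool.Agent.Lib.MP_0bc52e_nt.R

private theorem p_pushF_b0 {κ L h M : ℤ} (hL : 0 ≤ L) (hh : 0 < h) (hM : M = h * (L + 1))
    (hκ : L + 1 ≤ κ) : Bt κ 0 h M := by
  subst hM
  exact ⟨by rw [zero_mul]; positivity, mul_le_mul_of_nonneg_left hκ hh.le⟩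

private theorem p_pushF_bp {κ M m : ℤ} (hm : m = κ) : Bt κ M M (M * m) := by
  subst hm
  exact ⟨le_rfl, le_rfl⟩

private theorem p_pushF_bn {κ M m : ℤ} (hm : m = -κ) : Bt κ (-M) (-M) (M * m) := by
  subst hm
  unfold Bt
  constructor
  · exact (by ring : -M * κ = M * -κ).le
  · exact (by ring : M * -κ = -M * κ).le

private theorem p_pushF_bb {κ M m : ℤ} (hM : 0 ≤ M) (h1 : -κ ≤ m) (h2 : m ≤ κ) :
    Bt κ (-M) M (M * m) := by
  constructor
  · have := mul_le_mul_of_nonneg_left h1 hM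
    linarith [(by ring : -M * κ = M * -κ)]
  · exact mul_le_mul_of_nonneg_left h2 hM

private theorem p_pushF_bz {κ M m : ℤ} (hm : m = 0) : Bt κ 0 0 (M * m) := by
  subst hm
  unfold Bt
  simp

private theorem p_pushF_one {L m : ℤ} (h1 : -L ≤ m) (h2 : m ≤ L) : Bt 1 (-L) L (1 * m) := by
  unfold Bt
  constructor <;> linarith

theorem p_pushF (h_op1 : S_op1) : S_pushF := by
  obtain ⟨-, -, -, -, hng, -, -⟩ := h_op1
  intro PP p κ₀ M₀ D V0 V u1 u2 u3 L M h l f hL hh hM hA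
  have hM0 : 0 < M := by rw [hM]; positivity
  have h11 : Bt 1 1 1 1 := ⟨le_rfl, le_rfl⟩
  cases f with
  | mk t1 t2 t3 b1 b2 b3 dim =>
  cases dim with
  | zero =>
    obtain ⟨g0, g1, g2, g3, g4, hl⟩ := hA
    simp only [hng] at g0 g1 g2 g3 g4
    refine ⟨fun m1 m2 m3 hok => ?_, hl⟩
    have hm3 : m3 = 0 := hok rfl
    by_cases hn : (-L ≤ m1 ∧ m1 ≤ L) ∧ (-L ≤ m2 ∧ m2 ≤ L)
    · exact g0 m1 m2 m3 1 1 one_pos one_pos (Or.inr ⟨rfl, rfl, rfl⟩) h11
        (p_pushF_one hn.1.1 hn.1.2) (p_pushF_one hn.2.1 hn.2.2) (p_pushF_bz hm3)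
    · rcases le_total m2.natAbs m1.natAbs with ha | ha
      · rcases le_total 0 m1 with hs | hs
        · exact g1 m1 m2 m3 m1 M (by omega) hM0 (Or.inl rfl) (p_pushF_b0 hL hh hM (by omega))
            (p_pushF_bp rfl) (p_pushF_bb hM0.le (by omega) (by omega)) (p_pushF_bz hm3)
        · exact g2 m1 m2 m3 (-m1) M (by omega) hM0 (Or.inl rfl)
            (p_pushF_b0 hL hh hM (by omega)) (p_pushF_bn (by omega))
            (p_pushF_bb hM0.le (by omega) (by omega)) (p_pushF_bz hm3)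
      · rcases le_total 0 m2 with hs | hs
        · exact g3 m1 m2 m3 m2 M (by omega) hM0 (Or.inl rfl) (p_pushF_b0 hL hh hM (by omega))
            (p_pushF_bb hM0.le (by omega) (by omega)) (p_pushF_bp rfl) (p_pushF_bz hm3)
        · exact g4 m1 m2 m3 (-m2) M (by omega) hM0 (Or.inl rfl)
            (p_pushF_b0 hL hh hM (by omega)) (p_pushF_bb hM0.le (by omega) (by omega))
            (p_pushF_bn (by omega)) (p_pushF_bz hm3)
  | succ dim =>
    obtain ⟨g0, g1, g2, g3, g4, g5, g6, hl⟩ := hA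
    simp only [hng] at g0 g1 g2 g3 g4 g5 g6
    refine ⟨fun m1 m2 m3 _ => ?_, hl⟩
    by_cases hn : (-L ≤ m1 ∧ m1 ≤ L) ∧ (-L ≤ m2 ∧ m2 ≤ L) ∧ (-L ≤ m3 ∧ m3 ≤ L)
    · exact g0 m1 m2 m3 1 1 one_pos one_pos (Or.inr ⟨rfl, rfl, rfl⟩) h11
        (p_pushF_one hn.1.1 hn.1.2) (p_pushF_one hn.2.1.1 hn.2.1.2)
        (p_pushF_one hn.2.2.1 hn.2.2.2)
    · have hcase : (m2.natAbs ≤ m1.natAbs ∧ m3.natAbs ≤ m1.natAbs) ∨
          (m1.natAbs ≤ m2.natAbs ∧ m3.natAbs ≤ m2.natAbs) ∨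
          (m1.natAbs ≤ m3.natAbs ∧ m2.natAbs ≤ m3.natAbs) := by
        rcases le_total m1.natAbs m2.natAbs with h1 | h1 <;>
        rcases le_total m2.natAbs m3.natAbs with h2 | h2 <;>
        rcases le_total m1.natAbs m3.natAbs with h3 | h3
        · exact Or.inr (Or.inr ⟨h3, h2⟩)
        · exact Or.inr (Or.inr ⟨h1.trans h2, h2⟩)
        · exact Or.inr (Or.inl ⟨h1, h2⟩)
        · exact Or.inr (Or.inl ⟨h1, h2⟩)
        · exact Or.inr (Or.inr ⟨h3, h2⟩)
        · exact Or.inl ⟨h1, h3⟩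
        · exact Or.inl ⟨h1, h2.trans h1⟩
        · exact Or.inl ⟨h1, h3⟩
      rcases hcase with ⟨ha, hb⟩ | ⟨ha, hb⟩ | ⟨ha, hb⟩
      · rcases le_total 0 m1 with hs | hs
        · exact g1 m1 m2 m3 m1 M (by omega) hM0 (Or.inl rfl) (p_pushF_b0 hL hh hM (by omega))
            (p_pushF_bp rfl) (p_pushF_bb hM0.le (by omega) (by omega))
            (p_pushF_bb hM0.le (by omega) (by omega))
        · exact g2 m1 m2 m3 (-m1) M (by omega) hM0 (Or.inl rfl)
            (p_pushF_b0 hL hh hM (by omega)) (p_pushF_bn (by omega))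
            (p_pushF_bb hM0.le (by omega) (by omega)) (p_pushF_bb hM0.le (by omega) (by omega))
      · rcases le_total 0 m2 with hs | hs
        · exact g3 m1 m2 m3 m2 M (by omega) hM0 (Or.inl rfl) (p_pushF_b0 hL hh hM (by omega))
            (p_pushF_bb hM0.le (by omega) (by omega)) (p_pushF_bp rfl)
            (p_pushF_bb hM0.le (by omega) (by omega))
        · exact g4 m1 m2 m3 (-m2) M (by omega) hM0 (Or.inl rfl)
            (p_pushF_b0 hL hh hM (by omega)) (p_pushF_bb hM0.le (by omega) (by omega))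
            (p_pushF_bn (by omega)) (p_pushF_bb hM0.le (by omega) (by omega))
      · rcases le_total 0 m3 with hs | hs
        · exact g5 m1 m2 m3 m3 M (by omega) hM0 (Or.inl rfl) (p_pushF_b0 hL hh hM (by omega))
            (p_pushF_bb hM0.le (by omega) (by omega)) (p_pushF_bb hM0.le (by omega) (by omega))
            (p_pushF_bp rfl)
        · exact g6 m1 m2 m3 (-m3) M (by omega) hM0 (Or.inl rfl)
            (p_pushF_b0 hL hh hM (by omega)) (p_pushF_bb hM0.le (by omega) (by omega))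
            (p_pushF_bb hM0.le (by omega) (by omega)) (p_pushF_bn (by omega))

end Pool.Agent.Lib.MP_0bc52e_nt.K
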