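import Pool.Agent.Lib.MP_0bc52e_nt.K.Stm

/-!
# MP_0bc52e_nt, section K, piece [TK pushL]
-/

set_option autoImplicit false

namespace Pool.Agent.Lib.MP_0bc52e_nt.K

open Pool.Agent.Lib.MP_0bc52e_nt.LC Pool.Agent.Lib.MP_0bc52e_nt.T Pool.Agent.Lib.MP_0bc52e_nt.R

theorem p_pushL (h_pushF : S_pushF) : S_pushL := by
  intro PP p κ₀ M₀ D V0 V u1 u2 u3 L M h l fs hL hh hM hall
  cases fs with
  | nil =>
    have h1 : False := hall
    exact h1.elim
  | cons f0 fs' =>
    have key : ∀ gs : List Fam,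
        All PP p κ₀ M₀ D V0 (List.rec (motive := fun _ => G) l
          (fun f _ ih => pushF V u1 u2 u3 L M h ih f) gs) →
        (∀ f ∈ gs, ∀ m1 m2 m3 : ℤ, f.ok m3 → Dd PP p (f.pt m1 m2 m3 :: V) (u1, u2, u3)) ∧
          All PP p κ₀ M₀ D V0 l := by
      intro gs
      induction gs with
      | nil =>
        intro hg
        refine ⟨?_, hg⟩
        intro f hf
        exact absurd hf List.not_mem_nil
      | cons g gs ih =>
        intro hg
        have h1 : All PP p κ₀ M₀ D V0 (pushF V u1 u2 u3 L M h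
          (List.rec (motive := fun _ => G) l (fun f _ ih => pushF V u1 u2 u3 L M h ih f) gs) g) :=
          hg
        obtain ⟨h2, h3⟩ := h_pushF PP p κ₀ M₀ D V0 V u1 u2 u3 L M h _ g hL hh hM h1
        obtain ⟨h4, h5⟩ := ih h3
        refine ⟨?_, h5⟩
        intro f hf
        rcases List.mem_cons.1 hf with rfl | hf
        · exact h2
        · exact h4 f hf
    obtain ⟨h1, h2⟩ := key (f0 :: fs') hall
    exact ⟨List.cons_ne_nil _ _, h1, h2⟩

end Pool.Agent.Lib.MP_0bc52e_nt.K
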