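import Pool.Agent.Lib.MP_0bc52e_nt.K.Stm

/-!
Piece [sd] (MP_0bc52e_nt): from goals to dead residues, one modulus.
-/

set_option autoImplicit false

namespace Pool.Agent.Lib.MP_0bc52e_nt.K

open Pool.Agent.Lib.MP_0bc52e_nt.LC Pool.Agent.Lib.MP_0bc52e_nt.T Pool.Agent.Lib.MP_0bc52e_nt.R

private theorem p_sd_dvd (a p : ℤ) : p ∣ a % p - a :=
  ⟨-(a / p), by have := Int.emod_add_mul_ediv a p; linarith⟩

theorem p_sd (h_op2 : S_op2) (h_per : S_per) : S_sd := by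
  intro PP p V L hp hGO
  have hcod : ∀ q a1 a2 a3 : ℤ, cod q a1 a2 a3 = (a1 * q + a2) * q + a3 :=
    h_op2.2.2.2.2.2.2.2.1
  have hnn : ∀ w : ℤ × ℤ × ℤ, DA p L w → 0 ≤ cod p w.1 w.2.1 w.2.2 := by
    intro w hw
    obtain ⟨⟨h1, -⟩, ⟨h2, -⟩, ⟨h3, -⟩, -⟩ := hw
    rw [hcod]
    have h4 : 0 ≤ w.1 * p := mul_nonneg h1 hp.le
    have h5 : 0 ≤ (w.1 * p + w.2.1) * p := mul_nonneg (add_nonneg h4 h2) hp.le
    linarith
  have key : ∀ n : ℕ, ∀ u : ℤ × ℤ × ℤ, DA p L u → (cod p u.1 u.2.1 u.2.2).toNat = n →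
      Dd PP p V u := by
    intro n
    induction n using Nat.strong_induction_on with
    | _ n ih =>
      intro u hu hn
      obtain ⟨⟨h1, h1'⟩, ⟨h2, h2'⟩, ⟨h3, h3'⟩, e, he, h4, h4'⟩ := id hu
      refine hGO e he u hu ⟨by linarith, by linarith⟩ ⟨by linarith, by linarith⟩
        ⟨by linarith, by linarith⟩ ?_
      intro w hw hlt
      refine ih (cod p w.1 w.2.1 w.2.2).toNat ?_ w hw rfl
      rw [← hn]
      have h6 := hnn w hw
      omega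
  intro r hr hrp hin u1 u2
  have hD : DA p L (u1 % p, u2 % p, r) := by
    refine ⟨⟨Int.emod_nonneg _ hp.ne', Int.emod_lt_of_pos _ hp⟩,
      ⟨Int.emod_nonneg _ hp.ne', Int.emod_lt_of_pos _ hp⟩, ⟨hr, hrp⟩, ?_⟩
    unfold inl at hin
    rw [List.any_eq_true] at hin
    obtain ⟨e, he, h⟩ := hin
    exact ⟨e, he, of_decide_eq_true h⟩
  have h1 := key _ _ hD rfl
  exact (h_per PP p V (u1, u2, r) (u1 % p, u2 % p, r) (p_sd_dvd u1 p) (p_sd_dvd u2 p)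
    ⟨0, by simp⟩).2 h1

end Pool.Agent.Lib.MP_0bc52e_nt.K
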