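import Pool.Agent.Lib.MP_0bc52e_nt.K.Stm

/-!
# MP_0bc52e_nt, soundness of the checker: the piece [sdA]
-/

set_option autoImplicit false

namespace Pool.Agent.Lib.MP_0bc52e_nt.K

open Pool.Agent.Lib.MP_0bc52e_nt.LC Pool.Agent.Lib.MP_0bc52e_nt.T Pool.Agent.Lib.MP_0bc52e_nt.R

theorem p_sdA (h_sd : S_sd) (h_per : S_per) : S_sdA := by
  intro PP p V hp hGO u
  have hr0 : 0 ≤ u.2.2 % p := Int.emod_nonneg _ hp.ne'
  have hrp : u.2.2 % p < p := Int.emod_lt_of_pos _ hp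
  have h1 : Sd PP p V (u.2.2 % p) := by
    apply h_sd PP p V [(0, p - 1)] hp _ _ hr0 hrp
    · unfold inl
      rw [List.any_cons, Bool.or_eq_true]
      left
      rw [decide_eq_true_iff]
      exact ⟨hr0, by show u.2.2 % p ≤ p - 1; omega⟩
    · intro e he
      rw [List.mem_singleton] at he
      subst he
      exact hGO
  have h2 := h1 u.1 u.2.1
  refine (h_per PP p V u (u.1, u.2.1, u.2.2 % p) ?_ ?_ ?_).2 h2
  · show p ∣ u.1 - u.1
    rw [sub_self]; exact dvd_zero _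
  · show p ∣ u.2.1 - u.2.1
    rw [sub_self]; exact dvd_zero _
  · show p ∣ u.2.2 % p - u.2.2
    have h3 := Int.emod_add_mul_ediv u.2.2 p
    exact ⟨-(u.2.2 / p), by linarith⟩

end Pool.Agent.Lib.MP_0bc52e_nt.K
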