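import Pool.Agent.Lib.MP_0bc52e_nt.K.Stm

/-!
[sdU]: from goals to dead residues, uniformly (MP_0bc52e_nt).
-/

namespace Pool.Agent.Lib.MP_0bc52e_nt.K

open Pool.Agent.Lib.MP_0bc52e_nt.LC Pool.Agent.Lib.MP_0bc52e_nt.T Pool.Agent.Lib.MP_0bc52e_nt.R

theorem p_sdU (h_op2 : S_op2) (h_per : S_per) : S_sdU := by
  intro PP p M V hp hM hGO
  obtain ⟨-, -, -, -, -, -, -, hcod, -, -⟩ := h_op2
  have hnn : ∀ u : ℤ × ℤ × ℤ, (0 ≤ u.1 ∧ u.1 ≤ p) ∧ (0 ≤ u.2.1 ∧ u.2.1 ≤ p) ∧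
      (0 ≤ u.2.2 ∧ u.2.2 ≤ p) → 0 ≤ cod p u.1 u.2.1 u.2.2 := by
    rintro u ⟨h1, h2, h3⟩
    rw [hcod]
    have := h1.1
    have := h2.1
    have := h3.1
    positivity
  have hbt : ∀ x : ℤ, 0 ≤ x → x ≤ p → Bt p 0 M (M * x) := by
    intro x h1 h2
    refine ⟨?_, mul_le_mul_of_nonneg_left h2 hM.le⟩
    rw [zero_mul]
    exact mul_nonneg hM.le h1
  have key : ∀ (n : ℕ) (u : ℤ × ℤ × ℤ), (0 ≤ u.1 ∧ u.1 ≤ p) ∧ (0 ≤ u.2.1 ∧ u.2.1 ≤ p) ∧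
      (0 ≤ u.2.2 ∧ u.2.2 ≤ p) → (cod p u.1 u.2.1 u.2.2).toNat = n → Dd PP p V u := by
    intro n
    induction n using Nat.strong_induction_on with
    | _ n ih =>
      intro u hu hn
      refine hGO u hu (hbt _ hu.1.1 hu.1.2) (hbt _ hu.2.1.1 hu.2.1.2) (hbt _ hu.2.2.1 hu.2.2.2) ?_
      intro w hw hlt
      refine ih _ ?_ w hw rfl
      have h1 := hnn u hu
      have h2 := hnn w hw
      omega
  intro u
  have h1 := Int.emod_nonneg u.1 hp.ne'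
  have h2 := Int.emod_nonneg u.2.1 hp.ne'
  have h3 := Int.emod_nonneg u.2.2 hp.ne'
  have h1' := Int.emod_lt_of_pos u.1 hp
  have h2' := Int.emod_lt_of_pos u.2.1 hp
  have h3' := Int.emod_lt_of_pos u.2.2 hp
  refine (h_per PP p V u (u.1 % p, u.2.1 % p, u.2.2 % p) ?_ ?_ ?_).2
    (key _ (u.1 % p, u.2.1 % p, u.2.2 % p)
      ⟨⟨h1, h1'.le⟩, ⟨h2, h2'.le⟩, ⟨h3, h3'.le⟩⟩ rfl)
  · exact dvd_sub_comm.1 Int.dvd_self_sub_emod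
  · exact dvd_sub_comm.1 Int.dvd_self_sub_emod
  · exact dvd_sub_comm.1 Int.dvd_self_sub_emod

end Pool.Agent.Lib.MP_0bc52e_nt.K
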