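import Pool.Agent.Lib.MP_0bc52e_nt.K.Stm

/-!
# MP_0bc52e_nt, piece [TK sh]: the shadow
-/

set_option autoImplicit false

namespace Pool.Agent.Lib.MP_0bc52e_nt.K

open Pool.Agent.Lib.MP_0bc52e_nt.LC Pool.Agent.Lib.MP_0bc52e_nt.T Pool.Agent.Lib.MP_0bc52e_nt.R

private theorem p_sh_conv {Q : Set (ℝ × ℝ × ℝ)} (hQ : Convex ℝ Q) {x a b c : ℝ × ℝ × ℝ}
    (hx : x ∈ Q) (ha : a ∈ Q) (hb : b ∈ Q) (hc : c ∈ Q) {w0 w1 w2 w3 : ℝ} (h0 : 0 ≤ w0)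
    (h1 : 0 ≤ w1) (h2 : 0 ≤ w2) (h3 : 0 ≤ w3) (hs : w0 + w1 + w2 + w3 = 1) :
    w0 • x + w1 • a + w2 • b + w3 • c ∈ Q := by
  have h := hQ.sum_mem (t := Finset.univ) (w := ![w0, w1, w2, w3]) (z := ![x, a, b, c])
    (by intro i _; fin_cases i <;> simpa) (by simpa [Fin.sum_univ_four] using hs)
    (by intro i _; fin_cases i <;> simpa)
  simpa [Fin.sum_univ_four] using h

private theorem p_sh_coord (N x a b c q Δ μ1 μ2 μ3 : ℤ) (hS : 0 < Δ + μ1 + μ2 + μ3)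
    (h : N * (Δ * x + μ1 * a + μ2 * b + μ3 * c) = q * (Δ + μ1 + μ2 + μ3)) :
    (N : ℝ) * ((Δ : ℝ) / ((Δ + μ1 + μ2 + μ3 : ℤ) : ℝ) * x + (μ1 : ℝ) / ((Δ + μ1 + μ2 + μ3 : ℤ) : ℝ) * a +
      (μ2 : ℝ) / ((Δ + μ1 + μ2 + μ3 : ℤ) : ℝ) * b + (μ3 : ℝ) / ((Δ + μ1 + μ2 + μ3 : ℤ) : ℝ) * c) = q := by
  have hS' : ((Δ + μ1 + μ2 + μ3 : ℤ) : ℝ) ≠ 0 := by
    have : (0 : ℝ) < ((Δ + μ1 + μ2 + μ3 : ℤ) : ℝ) := by exact_mod_cast hS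
    exact this.ne'
  have h' : (N : ℝ) * (Δ * x + μ1 * a + μ2 * b + μ3 * c) = q * ((Δ + μ1 + μ2 + μ3 : ℤ) : ℝ) := by
    exact_mod_cast h
  field_simp
  linear_combination h'

theorem p_sh : S_sh := by
  intro Q x a b c q A B C N hQ hx ha hb hc hN hA hB hC hΔ h1 h2 h3
  obtain ⟨Δ, hΔd⟩ : ∃ Δ, Δ = A.1 * (B.2.1 * C.2.2 - B.2.2 * C.2.1) +
    A.2.1 * (B.2.2 * C.1 - B.1 * C.2.2) + A.2.2 * (B.1 * C.2.1 - B.2.1 * C.1) := ⟨_, rfl⟩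
  obtain ⟨μ1, hμ1⟩ : ∃ μ1, μ1 = (B.2.1 * C.2.2 - B.2.2 * C.2.1) * (N * x.1 - q.1) +
    (B.2.2 * C.1 - B.1 * C.2.2) * (N * x.2.1 - q.2.1) +
    (B.1 * C.2.1 - B.2.1 * C.1) * (N * x.2.2 - q.2.2) := ⟨_, rfl⟩
  obtain ⟨μ2, hμ2⟩ : ∃ μ2, μ2 = (C.2.1 * A.2.2 - C.2.2 * A.2.1) * (N * x.1 - q.1) +
    (C.2.2 * A.1 - C.1 * A.2.2) * (N * x.2.1 - q.2.1) +
    (C.1 * A.2.1 - C.2.1 * A.1) * (N * x.2.2 - q.2.2) := ⟨_, rfl⟩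
  obtain ⟨μ3, hμ3⟩ : ∃ μ3, μ3 = (A.2.1 * B.2.2 - A.2.2 * B.2.1) * (N * x.1 - q.1) +
    (A.2.2 * B.1 - A.1 * B.2.2) * (N * x.2.1 - q.2.1) +
    (A.1 * B.2.1 - A.2.1 * B.1) * (N * x.2.2 - q.2.2) := ⟨_, rfl⟩
  rw [← hΔd] at hΔ
  rw [← hμ1] at h1
  rw [← hμ2] at h2
  rw [← hμ3] at h3
  have hS : 0 < Δ + μ1 + μ2 + μ3 := by omega
  have hS' : (0 : ℝ) < ((Δ + μ1 + μ2 + μ3 : ℤ) : ℝ) := by exact_mod_cast hS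
  obtain ⟨x1, x2, x3⟩ := x
  obtain ⟨a1, a2, a3⟩ := a
  obtain ⟨b1, b2, b3⟩ := b
  obtain ⟨c1, c2, c3⟩ := c
  obtain ⟨q1, q2, q3⟩ := q
  obtain ⟨A1, A2, A3⟩ := A
  obtain ⟨B1, B2, B3⟩ := B
  obtain ⟨C1, C2, C3⟩ := C
  simp only [Prod.smul_mk, Prod.mk_sub_mk, Prod.mk.injEq, smul_eq_mul] at hA hB hC
  simp only at hΔd hμ1 hμ2 hμ3
  obtain ⟨hA1, hA2, hA3⟩ := hA
  obtain ⟨hB1, hB2, hB3⟩ := hB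
  obtain ⟨hC1, hC2, hC3⟩ := hC
  have e1 : N * (Δ * x1 + μ1 * a1 + μ2 * b1 + μ3 * c1) = q1 * (Δ + μ1 + μ2 + μ3) := by
    have : Δ * (N * x1 - q1) = μ1 * A1 + μ2 * B1 + μ3 * C1 := by
      rw [hΔd, hμ1, hμ2, hμ3]
      ring
    linear_combination this + μ1 * hA1 + μ2 * hB1 + μ3 * hC1
  have e2 : N * (Δ * x2 + μ1 * a2 + μ2 * b2 + μ3 * c2) = q2 * (Δ + μ1 + μ2 + μ3) := by
    have : Δ * (N * x2 - q2) = μ1 * A2 + μ2 * B2 + μ3 * C2 := by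
      rw [hΔd, hμ1, hμ2, hμ3]
      ring
    linear_combination this + μ1 * hA2 + μ2 * hB2 + μ3 * hC2
  have e3 : N * (Δ * x3 + μ1 * a3 + μ2 * b3 + μ3 * c3) = q3 * (Δ + μ1 + μ2 + μ3) := by
    have : Δ * (N * x3 - q3) = μ1 * A3 + μ2 * B3 + μ3 * C3 := by
      rw [hΔd, hμ1, hμ2, hμ3]
      ring
    linear_combination this + μ1 * hA3 + μ2 * hB3 + μ3 * hC3
  refine ⟨_, p_sh_conv hQ hx ha hb hc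
    (w0 := (Δ : ℝ) / ((Δ + μ1 + μ2 + μ3 : ℤ) : ℝ)) (w1 := (μ1 : ℝ) / ((Δ + μ1 + μ2 + μ3 : ℤ) : ℝ))
    (w2 := (μ2 : ℝ) / ((Δ + μ1 + μ2 + μ3 : ℤ) : ℝ)) (w3 := (μ3 : ℝ) / ((Δ + μ1 + μ2 + μ3 : ℤ) : ℝ))
    ?_ ?_ ?_ ?_ ?_, ?_⟩
  · exact div_nonneg (by exact_mod_cast hΔ.le) hS'.le
  · exact div_nonneg (by exact_mod_cast h1) hS'.le
  · exact div_nonneg (by exact_mod_cast h2) hS'.le
  · exact div_nonneg (by exact_mod_cast h3) hS'.le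
  · rw [← add_div, ← add_div, ← add_div, div_eq_one_iff_eq hS'.ne']
    push_cast
    ring
  · unfold ip
    simp only [Prod.smul_mk, Prod.mk_add_mk, smul_eq_mul]
    refine Prod.ext ?_ (Prod.ext ?_ ?_)
    · exact p_sh_coord N x1 a1 b1 c1 q1 Δ μ1 μ2 μ3 hS e1
    · exact p_sh_coord N x2 a2 b2 c2 q2 Δ μ1 μ2 μ3 hS e2
    · exact p_sh_coord N x3 a3 b3 c3 q3 Δ μ1 μ2 μ3 hS e3

end Pool.Agent.Lib.MP_0bc52e_nt.K
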