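import Pool.Agent.Lib.MP_0bc52e_nt.K.Stm

/-!
MP_0bc52e_nt, kernel-checked certificates: the split of an `o` box.
-/

set_option autoImplicit false

namespace Pool.Agent.Lib.MP_0bc52e_nt.K

open Pool.Agent.Lib.MP_0bc52e_nt.LC Pool.Agent.Lib.MP_0bc52e_nt.T Pool.Agent.Lib.MP_0bc52e_nt.R

private theorem p_spO_bad {PP : Set (ℝ × ℝ × ℝ) → Prop} {p κ M : ℤ} {D : ℤ × ℤ × ℤ → Prop}
    {V0 : List P3} (h : All PP p κ M D V0 G.bad) : False := h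

private theorem p_spO_o {PP : Set (ℝ × ℝ × ℝ) → Prop} {p κ M : ℤ} {D : ℤ × ℤ × ℤ → Prop}
    {V0 : List P3} {a1 b1 a2 b2 a3 b3 : ℤ} {l : G} (h : All PP p κ M D V0 (G.o a1 b1 a2 b2 a3 b3 l)) :
    GO PP p κ M D V0 a1 b1 a2 b2 a3 b3 ∧ All PP p κ M D V0 l := h

theorem p_spO (h_op2 : S_op2) (h_GOs : S_GOs) : S_spO := by
  intro PP p κ M D V0 a1 b1 a2 b2 a3 b3 l ax m dl hdl h
  obtain ⟨h1, h2, h3⟩ := h_GOs PP p κ M D V0 a1 b1 a2 b2 a3 b3 (m : ℤ) dl hdl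
  have hm : Int.ofNat m = (m : ℤ) := rfl
  have hmd : Int.ofNat (Nat.add m dl) = (m : ℤ) + dl := by
    show ((m + dl : ℕ) : ℤ) = _
    push_cast
    rfl
  obtain ⟨-, -, -, -, -, -, -, -, hsel, -⟩ := h_op2
  unfold spO at h
  match ax, h with
  | 0, h =>
    rw [(hsel _ _ _ _ _).1, hm, hmd] at h
    obtain ⟨h4, h5⟩ := p_spO_o h
    obtain ⟨h5, h6⟩ := p_spO_o h5
    exact ⟨h1 h4 h5, h6⟩
  | 1, h =>
    rw [(hsel _ _ _ _ _).2.1, hm, hmd] at h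
    obtain ⟨h4, h5⟩ := p_spO_o h
    obtain ⟨h5, h6⟩ := p_spO_o h5
    exact ⟨h2 h4 h5, h6⟩
  | 2, h =>
    rw [(hsel _ _ _ _ _).2.2.1, hm, hmd] at h
    obtain ⟨h4, h5⟩ := p_spO_o h
    obtain ⟨h5, h6⟩ := p_spO_o h5
    exact ⟨h3 h4 h5, h6⟩
  | k + 3, h =>
    rw [(hsel _ _ _ _ _).2.2.2 k] at h
    exact (p_spO_bad h).elim

end Pool.Agent.Lib.MP_0bc52e_nt.K
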