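import Pool.Agent.Lib.MP_0bc52e_nt.K.Stm

/-!
[spX]: splitting a box of points (MP_0bc52e_nt).
-/

namespace Pool.Agent.Lib.MP_0bc52e_nt.K

open Pool.Agent.Lib.MP_0bc52e_nt.LC Pool.Agent.Lib.MP_0bc52e_nt.T Pool.Agent.Lib.MP_0bc52e_nt.R

private theorem p_spX_key (m X κ M : ℤ) (dl : ℕ) (h : dl = 0 ∨ dl = 1 ∧ κ = 1 ∧ M = 1) :
    X ≤ m * κ ∨ (m + dl) * κ ≤ X := by
  rcases h with h | ⟨h, h', -⟩
  · subst h
    rcases le_total X (m * κ) with h1 | h1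
    · exact Or.inl h1
    · right
      simpa using h1
  · subst h h'
    simp only [mul_one, Nat.cast_one]
    omega

theorem p_spX (h_op2 : S_op2) : S_spX := by
  intro PP p κ₀ M₀ D V0 V u1 u2 u3 f dl a0 b0 a1 b1 a2 b2 a3 b3 l ax m h hax
  obtain ⟨-, -, -, -, -, -, -, -, hsel, -⟩ := h_op2
  obtain ⟨hs0, hs1, hs2, hs3⟩ := hsel G
    (G.x V u1 u2 u3 f dl a0 m a1 b1 a2 b2 a3 b3
      (G.x V u1 u2 u3 f dl (m + dl) b0 a1 b1 a2 b2 a3 b3 l))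
    (G.x V u1 u2 u3 f dl a0 b0 a1 m a2 b2 a3 b3
      (G.x V u1 u2 u3 f dl a0 b0 (m + dl) b1 a2 b2 a3 b3 l))
    (G.x V u1 u2 u3 f dl a0 b0 a1 b1 a2 m a3 b3
      (G.x V u1 u2 u3 f dl a0 b0 a1 b1 (m + dl) b2 a3 b3 l))
    (G.x V u1 u2 u3 f dl a0 b0 a1 b1 a2 b2 a3 m
      (G.x V u1 u2 u3 f dl a0 b0 a1 b1 a2 b2 (m + dl) b3 l))
  unfold spX at h
  have hcases : ax = 0 ∨ ax = 1 ∨ ax = 2 ∨ ax = 3 := by omega
  rcases hcases with hax | hax | hax | hax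
  · subst hax
    rw [hs0] at h
    obtain ⟨g1, g2, g3⟩ := h
    refine ⟨?_, g3⟩
    intro m1 m2 m3 κ M hκ hM hdl h0 h1 h2 h3
    rcases p_spX_key m M κ M dl hdl with hk | hk
    · exact g1 m1 m2 m3 κ M hκ hM hdl ⟨h0.1, hk⟩ h1 h2 h3
    · exact g2 m1 m2 m3 κ M hκ hM hdl ⟨hk, h0.2⟩ h1 h2 h3
  · subst hax
    rw [hs1] at h
    obtain ⟨g1, g2, g3⟩ := h
    refine ⟨?_, g3⟩
    intro m1 m2 m3 κ M hκ hM hdl h0 h1 h2 h3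
    rcases p_spX_key m (M * m1) κ M dl hdl with hk | hk
    · exact g1 m1 m2 m3 κ M hκ hM hdl h0 ⟨h1.1, hk⟩ h2 h3
    · exact g2 m1 m2 m3 κ M hκ hM hdl h0 ⟨hk, h1.2⟩ h2 h3
  · subst hax
    rw [hs2] at h
    obtain ⟨g1, g2, g3⟩ := h
    refine ⟨?_, g3⟩
    intro m1 m2 m3 κ M hκ hM hdl h0 h1 h2 h3
    rcases p_spX_key m (M * m2) κ M dl hdl with hk | hk
    · exact g1 m1 m2 m3 κ M hκ hM hdl h0 h1 ⟨h2.1, hk⟩ h3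
    · exact g2 m1 m2 m3 κ M hκ hM hdl h0 h1 ⟨hk, h2.2⟩ h3
  · subst hax
    have hs := hs3 0
    rw [Nat.zero_add] at hs
    rw [hs] at h
    obtain ⟨g1, g2, g3⟩ := h
    refine ⟨?_, g3⟩
    intro m1 m2 m3 κ M hκ hM hdl h0 h1 h2 h3
    rcases p_spX_key m (M * m3) κ M dl hdl with hk | hk
    · exact g1 m1 m2 m3 κ M hκ hM hdl h0 h1 h2 ⟨h3.1, hk⟩
    · exact g2 m1 m2 m3 κ M hκ hM hdl h0 h1 h2 ⟨hk, h3.2⟩

end Pool.Agent.Lib.MP_0bc52e_nt.K
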