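import Pool.Agent.Lib.MP_0bc52e_nt.K.Stm

/-!
[stP] One step for a box of residues, one modulus (MP_0bc52e_nt).
-/

namespace Pool.Agent.Lib.MP_0bc52e_nt.K

open Pool.Agent.Lib.MP_0bc52e_nt.LC Pool.Agent.Lib.MP_0bc52e_nt.T Pool.Agent.Lib.MP_0bc52e_nt.R

theorem p_stP (h_op1 : S_op1) (h_op2 : S_op2) (h_klP : S_klP) (h_spO : S_spO) (h_alO : S_alO)
    (h_syO : S_syO) : S_stP := by
  obtain ⟨hst, -, -, -, -, -, -⟩ := h_op1
  obtain ⟨-, -, -, -, -, -, -, -, hsel, hgd⟩ := h_op2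
  intro PP q D V0 cells ofams syms a1 b1 a2 b2 a3 b3 l d hq hc hf hs h
  unfold stO at h
  have hd : Nat.mod d 4 < 4 := Nat.mod_lt d (by norm_num)
  generalize Nat.mod d 4 = e at h hd
  interval_cases e
  · rw [(hsel G _ _ _ _).1, hst, hst] at h
    exact h_spO PP q 1 1 D V0 a1 b1 a2 b2 a3 b3 l _ _ 1 (Or.inr ⟨rfl, rfl, rfl⟩) h
  · rw [(hsel G _ _ _ _).2.1, hst] at h
    cases hb : klO 1 1 q q cells a1 b1 a2 b2 a3 b3 d (Int.ofNat (Nat.mod (Nat.div d 4) 256)) with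
    | false =>
      rw [hb, (hgd l).2] at h
      exact False.elim h
    | true =>
      rw [hb, (hgd l).1] at h
      refine ⟨fun u _ h1 h2 h3 _ => ?_, h⟩
      rw [one_mul] at h1 h2 h3
      exact h_klP PP q V0 cells a1 b1 a2 b2 a3 b3 d _ hc hb u h1 h2 h3
  · rw [(hsel G _ _ _ _).2.2.1] at h
    exact h_alO PP q D V0 ofams a1 b1 a2 b2 a3 b3 l d hf h
  · have h3 := (hsel G (st (Nat.mod (Nat.div d 4) 4) (fun ax => st (Nat.sub (Nat.div d 16) 1048576)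
      (spO 1 a1 b1 a2 b2 a3 b3 l ax)))
      (gd (st (Nat.mod (Nat.div d 4) 256) (fun k => klO 1 1 q q cells a1 b1 a2 b2 a3 b3 d (Int.ofNat k))) l)
      (alO V0 ofams a1 b1 a2 b2 a3 b3 l d) (syO q syms a1 b1 a2 b2 a3 b3 l d)).2.2.2 0
    exact h_syO PP q D V0 syms a1 b1 a2 b2 a3 b3 l d hq hs (h3 ▸ h)

end Pool.Agent.Lib.MP_0bc52e_nt.K
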