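import Pool.Agent.Lib.MP_0bc52e_nt.K.Stm

/-!
[stX]: one step for a box of points (MP_0bc52e_nt).
-/

namespace Pool.Agent.Lib.MP_0bc52e_nt.K

open Pool.Agent.Lib.MP_0bc52e_nt.LC Pool.Agent.Lib.MP_0bc52e_nt.T Pool.Agent.Lib.MP_0bc52e_nt.R

theorem p_stX (h_op1 : S_op1) (h_op2 : S_op2) (h_klX : S_klX) (h_spX : S_spX) (h_alX : S_alX) :
    S_stX := by
  intro PP q κ₀ M₀ D V0 V u1 u2 u3 f dl a0 b0 a1 b1 a2 b2 a3 b3 l d hCls h
  obtain ⟨hst, hsi, hsb, -, -, -, had⟩ := h_op1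
  obtain ⟨-, -, -, -, -, -, -, -, hsel, hgd⟩ := h_op2
  unfold stX at h
  have hd : d % 4 = 0 ∨ d % 4 = 1 ∨ d % 4 = 2 ∨ d % 4 = 3 := by omega
  have hmod : Nat.mod d 4 = d % 4 := rfl
  rw [hmod] at h
  rcases hd with hd | hd | hd | hd
  · rw [hd, (hsel _ _ _ _ _).1, hsi, hsi, had, hsb] at h
    exact h_spX PP q κ₀ M₀ D V0 V u1 u2 u3 f dl a0 b0 a1 b1 a2 b2 a3 b3 l _ _ h
      (Nat.mod_lt _ (by norm_num))
  · rw [hd, (hsel _ _ _ _ _).2.1] at h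
    cases hk : klX q V u1 u2 u3 f a0 b0 a1 b1 a2 b2 a3 b3 d
      (Int.ofNat (Nat.mod (Nat.div d 4) 256)) with
    | false =>
      rw [hk, (hgd _).2] at h
      exact h.elim
    | true =>
      rw [hk, (hgd _).1] at h
      refine ⟨?_, h⟩
      intro m1 m2 m3 κ M hκ hM _ h0 h1 h2 h3
      exact h_klX PP q V u1 u2 u3 f a0 b0 a1 b1 a2 b2 a3 b3 d _ hCls hk m1 m2 m3 κ M hκ hM h0 h1 h2
        h3
  · rw [hd, (hsel _ _ _ _ _).2.2.1] at h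
    cases dl with
    | zero => exact h.elim
    | succ k =>
      change All PP q κ₀ M₀ D V0 (alX V u1 u2 u3 f a1 b1 a2 b2 a3 b3 l d) at h
      have h1 := h_alX PP q κ₀ M₀ D V0 V u1 u2 u3 f a0 b0 a1 b1 a2 b2 a3 b3 l d hCls h
      refine ⟨?_, h1.2⟩
      intro m1 m2 m3 κ M hκ hM hdl
      rcases hdl with h2 | ⟨h2, h3, h4⟩
      · omega
      · exact h1.1 m1 m2 m3 κ M hκ hM (Or.inr ⟨rfl, h3, h4⟩)
  · rw [hd] at h
    have hs := (hsel G (si (sb (Nat.div d 16) 1048576) fun m => si (ad m (Int.ofNat dl)) fun m' =>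
        spX V u1 u2 u3 f dl a0 b0 a1 b1 a2 b2 a3 b3 l (Nat.mod (Nat.div d 4) 4) m m')
      (gd (klX q V u1 u2 u3 f a0 b0 a1 b1 a2 b2 a3 b3 d
        (Int.ofNat (Nat.mod (Nat.div d 4) 256))) l)
      (Nat.rec G.bad (fun _ _ => alX V u1 u2 u3 f a1 b1 a2 b2 a3 b3 l d) dl) G.bad).2.2.2 0
    rw [Nat.zero_add] at hs
    rw [hs] at h
    exact h.elim

end Pool.Agent.Lib.MP_0bc52e_nt.K
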