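import Pool.Agent.Lib.MP_0bc52e_nt.K.Stm

namespace Pool.Agent.Lib.MP_0bc52e_nt.K

open Pool.Agent.Lib.MP_0bc52e_nt.LC Pool.Agent.Lib.MP_0bc52e_nt.T Pool.Agent.Lib.MP_0bc52e_nt.R

theorem p_syO (h_op1 : S_op1) (h_op2 : S_op2) (h_nth : S_nth) (h_per : S_per) : S_syO := by
  obtain ⟨-, -, -, -, hng, hmu, had⟩ := h_op1
  obtain ⟨-, hps, heqi, han, -, hdt, hmd, hcod, -, hgd⟩ := h_op2
  intro PP q D V0 syms a1 b1 a2 b2 a3 b3 l d hq hS hA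
  unfold syO at hA
  set g : M3 := nth (M3.mk 1 0 0 0 1 0 0 0 1) syms (Nat.div d 4) with hg
  have hgm : g ∈ I3 :: syms := by
    rcases h_nth M3 (M3.mk 1 0 0 0 1 0 0 0 1) syms (Nat.div d 4) with h | h
    · exact List.mem_cons_of_mem _ h
    · rw [hg, h]; exact List.mem_cons_self
  clear_value g
  obtain ⟨hD, hQ⟩ := hS g hgm
  cases g with
  | mk x1 x2 x3 y1 y2 y3 z1 z2 z3 =>
  set B : Bool := an (pt1 a1 b1 a2 b2 a3 b3)
    (M3.rec (fun x1 x2 x3 y1 y2 y3 z1 z2 z3 =>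
      ps (ad (cod q a1 a2 a3) (ng (cod q (md (dt x1 x2 x3 a1 a2 a3) q) (md (dt y1 y2 y3 a1 a2 a3) q)
        (md (dt z1 z2 z3 a1 a2 a3) q))))) (M3.mk x1 x2 x3 y1 y2 y3 z1 z2 z3)) with hB
  have hBt : B = true := by
    cases hb : B with
    | true => rfl
    | false =>
      rw [hb, (hgd l).2] at hA
      exact absurd hA (fun h => h)
  rw [hBt, (hgd l).1] at hA
  refine ⟨?_, hA⟩
  rw [hB] at hBt
  obtain ⟨hp, hc⟩ := (han _ _).1 hBt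
  unfold pt1 at hp
  obtain ⟨e1, hp⟩ := (han _ _).1 hp
  obtain ⟨e2, e3⟩ := (han _ _).1 hp
  have e1 := (heqi _ _).1 e1
  have e2 := (heqi _ _).1 e2
  have e3 := (heqi _ _).1 e3
  have hc := (hps _).1 hc
  rw [had, hng, hdt, hdt, hdt, hmd _ _ hq, hmd _ _ hq, hmd _ _ hq] at hc
  rintro ⟨u1, u2, u3⟩ hDu ⟨k1, k2⟩ ⟨k3, k4⟩ ⟨k5, k6⟩ hind
  have hu1 : u1 = a1 := by simp only at k1 k2; omega
  have hu2 : u2 = a2 := by simp only at k3 k4; omega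
  have hu3 : u3 = a3 := by simp only at k5 k6; omega
  subst hu1 hu2 hu3
  intro Q hPQ hV hal
  obtain ⟨Q', hPQ', hV', hal'⟩ := hQ Q hPQ hV
  have hdead := hind _ (hD _ hDu) (by
    show cod q ((x1 * u1 + x2 * u2 + x3 * u3) % q) ((y1 * u1 + y2 * u2 + y3 * u3) % q)
      ((z1 * u1 + z2 * u2 + z3 * u3) % q) < cod q u1 u2 u3
    omega)
  refine ((h_per PP q V0 ((M3.mk x1 x2 x3 y1 y2 y3 z1 z2 z3).ap (u1, u2, u3)) _ ?_ ?_ ?_).2 hdead) Q' hPQ' hV' (hal' _ hal)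
  · show q ∣ _ % q - _
    exact Int.dvd_sub_self_of_emod_eq rfl
  · show q ∣ _ % q - _
    exact Int.dvd_sub_self_of_emod_eq rfl
  · show q ∣ _ % q - _
    exact Int.dvd_sub_self_of_emod_eq rfl

end Pool.Agent.Lib.MP_0bc52e_nt.K
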