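import Pool.Agent.Lib.MP_0bc52e_nt.K.Stm

/-!
# MP_0bc52e_nt, piece [TK sym1]: the symmetries
-/

set_option autoImplicit false

namespace Pool.Agent.Lib.MP_0bc52e_nt.K

open Pool.Agent.Lib.MP_0bc52e_nt.LC Pool.Agent.Lib.MP_0bc52e_nt.T Pool.Agent.Lib.MP_0bc52e_nt.R

/-- the frame of an inverse matrix -/
private theorem p_sym1_frame {V : List P3} {g h : M3} (hc : ckS V g h = true) :
    ∃ f, IsFr f ∧ f (ip (0, 0, 0)) = ip (0, 0, 0) ∧ (∀ v ∈ V, ∃ w ∈ V, f (ip v.v) = ip w.v) ∧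
      ∀ u, f (ip (g.ap u)) = ip u := by
  obtain ⟨a1, a2, a3, b1, b2, b3, c1, c2, c3⟩ := g
  obtain ⟨x1, x2, x3, y1, y2, y3, z1, z2, z3⟩ := h
  have hc' := of_decide_eq_true hc
  obtain ⟨e1, e2, e3, e4, e5, e6, e7, e8, e9, hd, hV⟩ := hc'
  refine ⟨fr (0, 0, 0) (x1, y1, z1) (x2, y2, z2) (x3, y3, z3),
    ⟨(0, 0, 0), (x1, y1, z1), (x2, y2, z2), (x3, y3, z3), ?_, fun _ => rfl⟩, ?_, ?_, ?_⟩
  · unfold det3
    simp only
    rcases hd with hd | hd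
    · left
      rw [← hd]
      ring
    · right
      rw [← hd]
      ring
  · unfold fr ip
    simp
  · intro v hv
    refine ⟨_, hV v hv, ?_⟩
    unfold fr ip
    refine Prod.ext ?_ (Prod.ext ?_ ?_)
    · show (((0 : ℤ) : ℝ) + (v.v.1 : ℝ) * (x1 : ℝ) + (v.v.2.1 : ℝ) * (x2 : ℝ) + (v.v.2.2 : ℝ) * (x3 : ℝ)) =
        ((x1 * v.v.1 + x2 * v.v.2.1 + x3 * v.v.2.2 : ℤ) : ℝ)
      push_cast
      ring
    · show (((0 : ℤ) : ℝ) + (v.v.1 : ℝ) * (y1 : ℝ) + (v.v.2.1 : ℝ) * (y2 : ℝ) + (v.v.2.2 : ℝ) * (y3 : ℝ)) =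
        ((y1 * v.v.1 + y2 * v.v.2.1 + y3 * v.v.2.2 : ℤ) : ℝ)
      push_cast
      ring
    · show (((0 : ℤ) : ℝ) + (v.v.1 : ℝ) * (z1 : ℝ) + (v.v.2.1 : ℝ) * (z2 : ℝ) + (v.v.2.2 : ℝ) * (z3 : ℝ)) =
        ((z1 * v.v.1 + z2 * v.v.2.1 + z3 * v.v.2.2 : ℤ) : ℝ)
      push_cast
      ring
  · intro u
    obtain ⟨u1, u2, u3⟩ := u
    have e1' : (x1 : ℝ) * a1 + x2 * b1 + x3 * c1 = 1 := by exact_mod_cast e1
    have e2' : (x1 : ℝ) * a2 + x2 * b2 + x3 * c2 = 0 := by exact_mod_cast e2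
    have e3' : (x1 : ℝ) * a3 + x2 * b3 + x3 * c3 = 0 := by exact_mod_cast e3
    have e4' : (y1 : ℝ) * a1 + y2 * b1 + y3 * c1 = 0 := by exact_mod_cast e4
    have e5' : (y1 : ℝ) * a2 + y2 * b2 + y3 * c2 = 1 := by exact_mod_cast e5
    have e6' : (y1 : ℝ) * a3 + y2 * b3 + y3 * c3 = 0 := by exact_mod_cast e6
    have e7' : (z1 : ℝ) * a1 + z2 * b1 + z3 * c1 = 0 := by exact_mod_cast e7
    have e8' : (z1 : ℝ) * a2 + z2 * b2 + z3 * c2 = 0 := by exact_mod_cast e8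
    have e9' : (z1 : ℝ) * a3 + z2 * b3 + z3 * c3 = 1 := by exact_mod_cast e9
    unfold fr ip
    refine Prod.ext ?_ (Prod.ext ?_ ?_)
    · show (((0 : ℤ) : ℝ) + ((a1 * u1 + a2 * u2 + a3 * u3 : ℤ) : ℝ) * (x1 : ℝ) +
        ((b1 * u1 + b2 * u2 + b3 * u3 : ℤ) : ℝ) * (x2 : ℝ) +
        ((c1 * u1 + c2 * u2 + c3 * u3 : ℤ) : ℝ) * (x3 : ℝ)) = (u1 : ℝ)
      push_cast
      linear_combination (u1 : ℝ) * e1' + (u2 : ℝ) * e2' + (u3 : ℝ) * e3'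
    · show (((0 : ℤ) : ℝ) + ((a1 * u1 + a2 * u2 + a3 * u3 : ℤ) : ℝ) * (y1 : ℝ) +
        ((b1 * u1 + b2 * u2 + b3 * u3 : ℤ) : ℝ) * (y2 : ℝ) +
        ((c1 * u1 + c2 * u2 + c3 * u3 : ℤ) : ℝ) * (y3 : ℝ)) = (u2 : ℝ)
      push_cast
      linear_combination (u1 : ℝ) * e4' + (u2 : ℝ) * e5' + (u3 : ℝ) * e6'
    · show (((0 : ℤ) : ℝ) + ((a1 * u1 + a2 * u2 + a3 * u3 : ℤ) : ℝ) * (z1 : ℝ) +
        ((b1 * u1 + b2 * u2 + b3 * u3 : ℤ) : ℝ) * (z2 : ℝ) +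
        ((c1 * u1 + c2 * u2 + c3 * u3 : ℤ) : ℝ) * (z3 : ℝ)) = (u3 : ℝ)
      push_cast
      linear_combination (u1 : ℝ) * e7' + (u2 : ℝ) * e8' + (u3 : ℝ) * e9'

private theorem p_sym1_I3 (u : ℤ × ℤ × ℤ) : I3.ap u = u := by
  obtain ⟨u1, u2, u3⟩ := u
  show ((1 * u1 + 0 * u2 + 0 * u3, 0 * u1 + 1 * u2 + 0 * u3, 0 * u1 + 0 * u2 + 1 * u3) :
    ℤ × ℤ × ℤ) = (u1, u2, u3)
  simp

private theorem p_sym1_ck {V : List P3} {syms : List M3} (h : ckL V syms = true) {g : M3}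
    (hg : g ∈ syms) : ∃ h, ckS V g h = true := by
  unfold ckL at h
  rw [List.all_eq_true] at h
  have h1 := h g hg
  rw [List.any_eq_true] at h1
  obtain ⟨h', -, h2⟩ := h1
  exact ⟨h', h2⟩

private theorem p_sym1_blk {g : M3} (h : blk g = true) (u : ℤ × ℤ × ℤ) :
    (g.ap u).2.2 = u.2.2 := by
  obtain ⟨a1, a2, a3, b1, b2, b3, c1, c2, c3⟩ := g
  obtain ⟨-, -, h1, h2, h3⟩ := of_decide_eq_true h
  show c1 * u.1 + c2 * u.2.1 + c3 * u.2.2 = u.2.2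
  rw [h1, h2, h3]
  ring

theorem p_sym1 (h_frQ : S_frQ) : S_sym1 := by
  intro V syms p L hp hck hblk g hg
  have hlast : ∀ u, (g.ap u).2.2 = u.2.2 := by
    intro u
    rcases List.mem_cons.1 hg with rfl | hg
    · rw [p_sym1_I3]
    · exact p_sym1_blk (List.all_eq_true.1 hblk g hg) u
  refine ⟨?_, ?_⟩
  · rintro u ⟨-, -, hu3, e, he, he1, he2⟩
    have h3 : (g.ap u).2.2 % p = u.2.2 := by
      rw [hlast u]
      exact Int.emod_eq_of_lt hu3.1 hu3.2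
    refine ⟨⟨Int.emod_nonneg _ hp.ne', Int.emod_lt_of_pos _ hp⟩,
      ⟨Int.emod_nonneg _ hp.ne', Int.emod_lt_of_pos _ hp⟩,
      ⟨Int.emod_nonneg _ hp.ne', Int.emod_lt_of_pos _ hp⟩, e, he, ?_, ?_⟩
    · show e.1 ≤ (g.ap u).2.2 % p
      rw [h3]
      exact he1
    · show (g.ap u).2.2 % p ≤ e.2
      rw [h3]
      exact he2
  · intro Q hQ hVQ
    rcases List.mem_cons.1 hg with rfl | hg
    · refine ⟨Q, hQ, hVQ, fun u hu => ?_⟩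
      rw [p_sym1_I3]
      exact hu
    · obtain ⟨h, hh⟩ := p_sym1_ck hck hg
      obtain ⟨f, hf, hf0, hfV, hfu⟩ := p_sym1_frame hh
      obtain ⟨h1, h2⟩ := h_frQ f hf hf0 Q
      obtain ⟨hQ0, x, y, hxy⟩ := hQ
      refine ⟨f ⁻¹' Q, ⟨h1 hQ0, (g.ap (x, y, -1)).1, (g.ap (x, y, -1)).2.1, ?_⟩, ?_,
        fun u hu => h2 p u _ (hfu u) hu⟩
      · have h3 : ((g.ap (x, y, -1)).1, (g.ap (x, y, -1)).2.1, -1) = g.ap (x, y, -1) := by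
          refine Prod.ext rfl (Prod.ext rfl ?_)
          exact (hlast (x, y, -1)).symm
        show f (ip ((g.ap (x, y, -1)).1, (g.ap (x, y, -1)).2.1, -1)) ∈ Q
        rw [h3, hfu]
        exact hxy
      · intro v hv
        obtain ⟨w, hw, he⟩ := hfV v hv
        show f (ip v.v) ∈ Q
        rw [he]
        exact hVQ w hw

end Pool.Agent.Lib.MP_0bc52e_nt.K
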