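import Pool.Agent.Lib.MP_0bc52e_nt.K.Stm

/-! Piece symI. -/

namespace Pool.Agent.Lib.MP_0bc52e_nt.K

open Pool.Agent.Lib.MP_0bc52e_nt.LC Pool.Agent.Lib.MP_0bc52e_nt.T Pool.Agent.Lib.MP_0bc52e_nt.R

private lemma p_symI_ap (u : ℤ × ℤ × ℤ) : I3.ap u = u := by
  obtain ⟨a, b, c⟩ := u
  show (1 * a + 0 * b + 0 * c, 0 * a + 1 * b + 0 * c, 0 * a + 0 * b + 1 * c) = (a, b, c)
  simp only [one_mul, zero_mul, add_zero, zero_add]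

theorem p_symI : S_symI := by
  intro PP V p L g hg
  have hg' : g = I3 := by
    rcases List.mem_cons.1 hg with h | h
    · exact h
    · exact List.mem_singleton.1 h
  subst hg'
  constructor
  · rintro u ⟨⟨h1, h2⟩, ⟨h3, h4⟩, ⟨h5, h6⟩, h7⟩
    rw [p_symI_ap, Int.emod_eq_of_lt h1 h2, Int.emod_eq_of_lt h3 h4, Int.emod_eq_of_lt h5 h6]
    exact ⟨⟨h1, h2⟩, ⟨h3, h4⟩, ⟨h5, h6⟩, h7⟩
  · intro Q hQ hV
    exact ⟨Q, hQ, hV, fun u hu => by rw [p_symI_ap]; exact hu⟩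

end Pool.Agent.Lib.MP_0bc52e_nt.K
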