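import Pool.Agent.Lib.MP_0bc52e_nt.K.Stm

/-!
MP_0bc52e_nt, Theorem (T13): piece [coreP], one modulus.
-/

namespace Pool.Agent.Lib.MP_0bc52e_nt.K

open Pool.Agent.Lib.MP_0bc52e_nt.LC Pool.Agent.Lib.MP_0bc52e_nt.T Pool.Agent.Lib.MP_0bc52e_nt.R

theorem p_coreP (h_stP : S_stP) (h_stX : S_stX) (h_loop : S_loop) : S_coreP := by
  intro PP q D V0 cells ofams syms hq hcls hcell hfam hsym fuel c cs g hg
  refine h_loop PP 1 1 q q 1 cells V0 ofams syms q 1 1 D ?_ ?_ fuel c cs g hg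
  · intro a1 b1 a2 b2 a3 b3 l d h
    exact h_stP PP q D V0 cells ofams syms a1 b1 a2 b2 a3 b3 l d hq hcell hfam hsym h
  · intro V u1 u2 u3 f dl a0 b0 a1 b1 a2 b2 a3 b3 l d h
    exact h_stX PP q 1 1 D V0 V u1 u2 u3 f dl a0 b0 a1 b1 a2 b2 a3 b3 l d hcls h

end Pool.Agent.Lib.MP_0bc52e_nt.K
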