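import Pool.Agent.Lib.MP_0bc52e_nt.K.Stm

/-!
The kill of a box of points (MP_0bc52e_nt).
-/

set_option autoImplicit false

namespace Pool.Agent.Lib.MP_0bc52e_nt.K

open Pool.Agent.Lib.MP_0bc52e_nt.LC Pool.Agent.Lib.MP_0bc52e_nt.T Pool.Agent.Lib.MP_0bc52e_nt.R

private theorem p_klX_qv (h_op1 : S_op1) (N q1 q2 q3 x y z : ℤ) (f : ℤ → ℤ → ℤ → Bool) :
    qv N q1 q2 q3 (P3.mk x y z) f = f (q1 + -(N * x)) (q2 + -(N * y)) (q3 + -(N * z)) := by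
  obtain ⟨-, hsi, -, -, hng, hmu, had⟩ := h_op1
  show si (ad q1 (ng (mu N x))) (fun X => si (ad q2 (ng (mu N y))) fun Y =>
    si (ad q3 (ng (mu N z))) fun Z => f X Y Z) = _
  rw [hsi, hsi, hsi]
  simp only [hng, hmu, had]

private theorem p_klX_kl3 (h_op1 : S_op1) (h_op2 : S_op2)
    (N q1 q2 q3 t1 t2 t3 e1 e2 e3 a0 b0 a1 b1 a2 b2 a3 b3 A1 A2 A3 B1 B2 B3 C1 C2 C3 : ℤ)
    (h : kl3 N q1 q2 q3 t1 t2 t3 e1 e2 e3 a0 b0 a1 b1 a2 b2 a3 b3 A1 A2 A3 B1 B2 B3 C1 C2 C3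
      = true) :
    0 < A1 * (B2 * C3 + -(B3 * C2)) + A2 * (B3 * C1 + -(B1 * C3)) + A3 * (B1 * C2 + -(B2 * C1)) ∧
    okG N q1 q2 q3 t1 t2 t3 e1 e2 e3 a0 b0 a1 b1 a2 b2 a3 b3 (B2 * C3 + -(B3 * C2))
      (B3 * C1 + -(B1 * C3)) (B1 * C2 + -(B2 * C1)) = true ∧
    okG N q1 q2 q3 t1 t2 t3 e1 e2 e3 a0 b0 a1 b1 a2 b2 a3 b3 (C2 * A3 + -(C3 * A2))
      (C3 * A1 + -(C1 * A3)) (C1 * A2 + -(C2 * A1)) = true ∧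
    okG N q1 q2 q3 t1 t2 t3 e1 e2 e3 a0 b0 a1 b1 a2 b2 a3 b3 (A2 * B3 + -(A3 * B2))
      (A3 * B1 + -(A1 * B3)) (A1 * B2 + -(A2 * B1)) = true := by
  obtain ⟨-, hsi, -, -, hng, hmu, had⟩ := h_op1
  obtain ⟨-, hps, -, han, -, hdt, -⟩ := h_op2
  unfold kl3 at h
  simp only [hsi, hng, hmu, had, han, hps, hdt] at h
  exact h

theorem p_klX (h_op1 : S_op1) (h_op2 : S_op2) (h_nth : S_nth) (h_sh : S_sh) (h_okG : S_okG) :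
    S_klX := by
  intro PP q V u1 u2 u3 f a0 b0 a1 b1 a2 b2 a3 b3 d k hcls h m1 m2 m3 κ M hκ hM hb0 hb1 hb2 hb3
    Q hQ hV halv
  obtain ⟨hconv, -, horig⟩ := hcls Q hQ
  have hqv := p_klX_qv h_op1
  have hkl3 := p_klX_kl3 h_op1 h_op2
  obtain ⟨-, hsi, -, -, hng, hmu, had⟩ := h_op1
  obtain ⟨-, hps, -, han, -, hdt, -⟩ := h_op2
  obtain ⟨t1, t2, t3, e1, e2, e3, dim⟩ := f
  obtain ⟨w1, hw1⟩ : ∃ w, w = sb 512 (Nat.mod (Nat.div d 1024) 1024) := ⟨_, rfl⟩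
  obtain ⟨w2, hw2⟩ : ∃ w, w = sb 512 (Nat.mod (Nat.div d 1048576) 1024) := ⟨_, rfl⟩
  obtain ⟨w3, hw3⟩ : ∃ w, w = sb 512 (Nat.mod (Nat.div d 1073741824) 1024) := ⟨_, rfl⟩
  have h1 : an (ps k) (si (ad q (ng k)) fun N => an (ps N)
    (si (ad (mu k u1) (mu q w1)) fun q1 => si (ad (mu k u2) (mu q w2)) fun q2 =>
      si (ad (mu k u3) (mu q w3)) fun q3 =>
      kl2 V t1 t2 t3 e1 e2 e3 a0 b0 a1 b1 a2 b2 a3 b3 d N q1 q2 q3)) = true := by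
    rw [hw1, hw2, hw3]
    exact h
  simp only [hsi, han, hps, hng, hmu, had] at h1
  obtain ⟨hk, hN, h2⟩ := h1
  obtain ⟨N, hNe⟩ : ∃ N, N = q + -k := ⟨_, rfl⟩
  obtain ⟨q1, hq1⟩ : ∃ x, x = k * u1 + q * w1 := ⟨_, rfl⟩
  obtain ⟨q2, hq2⟩ : ∃ x, x = k * u2 + q * w2 := ⟨_, rfl⟩
  obtain ⟨q3, hq3⟩ : ∃ x, x = k * u3 + q * w3 := ⟨_, rfl⟩
  rw [← hNe, ← hq1, ← hq2, ← hq3] at h2
  rw [← hNe] at hN
  have hmem : ∀ n : ℕ, ip (nth (P3.mk 0 0 0) V n).v ∈ Q := by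
    intro n
    rcases h_nth P3 (P3.mk 0 0 0) V n with h3 | h3
    · exact hV _ (List.mem_cons_of_mem _ h3)
    · rw [h3]
      exact horig
  unfold kl2 at h2
  obtain ⟨a, ha⟩ : ∃ a, a = nth (P3.mk 0 0 0) V (Nat.mod (Nat.div d 1099511627776) 16) :=
    ⟨_, rfl⟩
  obtain ⟨b, hb⟩ : ∃ a, a = nth (P3.mk 0 0 0) V (Nat.mod (Nat.div d 17592186044416) 16) :=
    ⟨_, rfl⟩
  obtain ⟨c, hc⟩ : ∃ a, a = nth (P3.mk 0 0 0) V (Nat.div d 281474976710656) := ⟨_, rfl⟩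
  have haQ : ip a.v ∈ Q := by rw [ha]; exact hmem _
  have hbQ : ip b.v ∈ Q := by rw [hb]; exact hmem _
  have hcQ : ip c.v ∈ Q := by rw [hc]; exact hmem _
  rw [← ha, ← hb, ← hc] at h2
  obtain ⟨ax, ay, az⟩ := a
  obtain ⟨bx, by', bz⟩ := b
  obtain ⟨cx, cy, cz⟩ := c
  rw [hqv, hqv, hqv] at h2
  obtain ⟨g0, g1, g2, g3⟩ := hkl3 _ _ _ _ _ _ _ _ _ _ _ _ _ _ _ _ _ _ _ _ _ _ _ _ _ _ _ h2
  have k1 := h_okG N q1 q2 q3 t1 t2 t3 e1 e2 e3 a0 b0 a1 b1 a2 b2 a3 b3 _ _ _ m1 m2 m3 κ M hN hκ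
    hM g1 hb0 hb1 hb2 hb3
  have k2 := h_okG N q1 q2 q3 t1 t2 t3 e1 e2 e3 a0 b0 a1 b1 a2 b2 a3 b3 _ _ _ m1 m2 m3 κ M hN hκ
    hM g2 hb0 hb1 hb2 hb3
  have k3 := h_okG N q1 q2 q3 t1 t2 t3 e1 e2 e3 a0 b0 a1 b1 a2 b2 a3 b3 _ _ _ m1 m2 m3 κ M hN hκ
    hM g3 hb0 hb1 hb2 hb3
  have hx : ip (t1 * m1 + e1, t2 * m2 + e2, t3 * m3 + e3) ∈ Q :=
    hV _ List.mem_cons_self
  have hvec : ∀ x y z : ℤ, ((q1 + -(N * x), q2 + -(N * y), q3 + -(N * z)) : ℤ × ℤ × ℤ) =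
      (q1, q2, q3) - N • (x, y, z) := by
    intro x y z
    ext <;> simp [sub_eq_add_neg]
  obtain ⟨y, hy, hyq⟩ := h_sh Q (t1 * m1 + e1, t2 * m2 + e2, t3 * m3 + e3) (ax, ay, az)
    (bx, by', bz) (cx, cy, cz) (q1, q2, q3)
    (q1 + -(N * ax), q2 + -(N * ay), q3 + -(N * az))
    (q1 + -(N * bx), q2 + -(N * by'), q3 + -(N * bz))
    (q1 + -(N * cx), q2 + -(N * cy), q3 + -(N * cz)) N hconv hx haQ hbQ hcQ hN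
    (hvec _ _ _) (hvec _ _ _) (hvec _ _ _) g0 k1 k2 k3
  have hkq : k < q := by linarith
  have h5 := halv k hk hkq (-w1, -w2, -w3) y hy
  apply h5
  have h6 : ((q - k : ℤ) : ℝ) = (N : ℝ) := by
    rw [hNe]
    push_cast
    ring
  have h7 : k • ((u1, u2, u3) : ℤ × ℤ × ℤ) - q • ((-w1, -w2, -w3) : ℤ × ℤ × ℤ) =
      (q1, q2, q3) := by
    rw [hq1, hq2, hq3]
    ext <;> simp
  rw [h6, h7]
  exact hyq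

end Pool.Agent.Lib.MP_0bc52e_nt.K
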