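import Pool.Agent.Lib.MP_0bc52e_nt.K.Stm

/-! Piece per. -/

namespace Pool.Agent.Lib.MP_0bc52e_nt.K

open Pool.Agent.Lib.MP_0bc52e_nt.LC Pool.Agent.Lib.MP_0bc52e_nt.T Pool.Agent.Lib.MP_0bc52e_nt.R

private lemma p_per_alv (p : ℤ) (u u' : ℤ × ℤ × ℤ) (h1 : p ∣ u'.1 - u.1) (h2 : p ∣ u'.2.1 - u.2.1)
    (h3 : p ∣ u'.2.2 - u.2.2) (Q : Set (ℝ × ℝ × ℝ)) (hQ : Alv Q p u) : Alv Q p u' := by
  obtain ⟨t1, h1⟩ := h1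
  obtain ⟨t2, h2⟩ := h2
  obtain ⟨t3, h3⟩ := h3
  intro k hk hkp z y hy he
  refine hQ k hk hkp (z - k • (t1, t2, t3)) y hy ?_
  rw [he]
  congr 1
  obtain ⟨u1, u2, u3⟩ := u
  obtain ⟨v1, v2, v3⟩ := u'
  obtain ⟨z1, z2, z3⟩ := z
  simp only [Prod.smul_mk, Prod.mk_sub_mk, smul_eq_mul, Prod.mk.injEq] at h1 h2 h3 ⊢
  refine ⟨?_, ?_, ?_⟩
  · linear_combination k * h1
  · linear_combination k * h2
  · linear_combination k * h3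

theorem p_per : S_per := by
  intro PP p V u u' h1 h2 h3
  refine ⟨fun Q hQ => p_per_alv p u u' h1 h2 h3 Q hQ, fun hd Q hP hV hQ => ?_⟩
  exact hd Q hP hV (p_per_alv p u u' h1 h2 h3 Q hQ)

end Pool.Agent.Lib.MP_0bc52e_nt.K
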