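import Pool.Agent.Lib.MP_0bc52e_nt.K.Stm

/-!
# MP_0bc52e_nt, piece [TK stU]: one step for a box of residues, all moduli `p ≥ P0`
-/

namespace Pool.Agent.Lib.MP_0bc52e_nt.K

open Pool.Agent.Lib.MP_0bc52e_nt.LC Pool.Agent.Lib.MP_0bc52e_nt.T Pool.Agent.Lib.MP_0bc52e_nt.R

theorem p_stU (h_op1 : S_op1) (h_op2 : S_op2) (h_klU : S_klU) (h_spO : S_spO) : S_stU := by
  intro PP P0 M p D V0 cells ofams syms a1 b1 a2 b2 a3 b3 l d hc hcell hM hp hA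
  have hst := h_op1.1
  obtain ⟨_, _, _, _, _, _, _, _, hsel, hgd⟩ := h_op2
  unfold stO at hA
  have h4 : Nat.mod d 4 = 0 ∨ Nat.mod d 4 = 1 ∨ Nat.mod d 4 = 2 ∨ Nat.mod d 4 = 3 := by
    change d % 4 = 0 ∨ d % 4 = 1 ∨ d % 4 = 2 ∨ d % 4 = 3
    omega
  rcases h4 with e | e | e | e
  · rw [e, (hsel _ _ _ _ _).1, hst, hst] at hA
    exact h_spO PP p p M D V0 a1 b1 a2 b2 a3 b3 l _ _ 0 (Or.inl rfl) hA
  · rw [e, (hsel _ _ _ _ _).2.1, hst] at hA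
    cases hk : klO P0 M (P0 * M) P0 cells a1 b1 a2 b2 a3 b3 d
        (Int.ofNat (Nat.mod (Nat.div d 4) 256)) with
    | false =>
      rw [hk, (hgd l).2] at hA
      exact False.elim hA
    | true =>
      rw [hk, (hgd l).1] at hA
      refine ⟨fun u _ h1 h2 h3 _ => ?_, hA⟩
      exact h_klU PP P0 M p V0 cells a1 b1 a2 b2 a3 b3 d _ hc hcell hM hp hk u h1 h2 h3
  · rw [e, (hsel _ _ _ _ _).2.2.1] at hA
    exact False.elim hA
  · rw [e, (hsel _ _ _ _ _).2.2.2 0] at hA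
    exact False.elim hA

end Pool.Agent.Lib.MP_0bc52e_nt.K
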